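import Pool.Agent.Lib.MP_0a5adf_nt.WT.DivDefs
import Pool.Agent.Lib.MP_0a5adf_nt.WT.Blk

/-!
Row CLS: invariant sets are equidistributed in residue classes.
-/

set_option autoImplicit false

namespace Pool.Agent.Lib.MP_0a5adf_nt.WT.Div

open Finset Pool.Agent.Lib.MP_0a5adf_nt.H89

/-- The set of integers attached to `S`. -/
def toZ (S : Set ℕ) : Set ℤ := {x : ℤ | 0 ≤ x ∧ x.toNat ∈ S}

theorem mem_toZ (S : Set ℕ) (n : ℕ) : (n : ℤ) ∈ toZ S ↔ n ∈ S := by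
  simp [toZ]

theorem T_cast (n : ℕ) : Pool.Agent.Lib.MP_edb5be_nt.CO.T (n : ℤ) = ((T n : ℕ) : ℤ) := by
  unfold Pool.Agent.Lib.MP_edb5be_nt.CO.T T
  split_ifs with h1 h2 h2 <;> push_cast <;> omega

theorem toZ_inv {S : Set ℕ} {lo : ℕ} (h : Inv S lo) :
    Pool.Agent.Lib.MP_edb5be_nt.CO.InvAbove ((2 : ℝ) ^ lo) (toZ S) := by
  intro x hx
  by_cases h0 : 0 ≤ x
  · obtain ⟨n, rfl⟩ := Int.eq_ofNat_of_zero_le h0
    rw [T_cast, mem_toZ, mem_toZ]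
    apply h
    have h1 : |(((n : ℕ) : ℤ) : ℝ)| = n := by
      push_cast
      exact abs_of_nonneg (Nat.cast_nonneg n)
    rw [h1] at hx
    exact_mod_cast hx
  · push Not at h0
    have h1 : Pool.Agent.Lib.MP_edb5be_nt.CO.T x < 0 := by
      unfold Pool.Agent.Lib.MP_edb5be_nt.CO.T
      split_ifs with h2 <;> omega
    constructor
    · rintro ⟨h2, -⟩
      omega
    · rintro ⟨h2, -⟩
      omega

/-- The counting. -/
theorem cls_count (S : Set ℕ) (b K a : ℕ) (ha : a < K) (X : ℝ)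
    (hX : X = 2 * (2 ^ b / K)) (Z : Set ℤ) (hZf : Z.Finite)
    (hZ : ∀ n : ℕ, (n : ℝ) ≤ X → n ∈ S → K * n + a ∉ S → (n : ℤ) ∈ Z) :
    ({N : ℕ | N ∈ S ∧ (2 ^ b / K : ℝ) ≤ N ∧ (N : ℝ) < X}.ncard : ℝ) ≤
      ({M : ℕ | 2 ^ b ≤ M ∧ M < 2 ^ (b + 1) ∧ M ∈ S ∧ M % K = a}.ncard : ℝ) + Z.ncard + 1 := by
  have hK : 0 < K := by omega
  have hKR : (0 : ℝ) < K := by exact_mod_cast hK
  set A : Set ℕ := {N : ℕ | N ∈ S ∧ (2 ^ b / K : ℝ) ≤ N ∧ (N : ℝ) < X} with hA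
  set R : Set ℕ := {M : ℕ | 2 ^ b ≤ M ∧ M < 2 ^ (b + 1) ∧ M ∈ S ∧ M % K = a} with hR
  have hRf : R.Finite := (Set.finite_Iio (2 ^ (b + 1))).subset fun M hM => hM.2.1
  have hAf : A.Finite := by
    refine (Set.finite_Iio (⌈X⌉₊)).subset fun N hN => ?_
    exact Nat.lt_ceil.2 hN.2.2
  have hlow : ∀ q ∈ A, 2 ^ b ≤ K * q := by
    intro q hq
    have h1 := hq.2.1
    rw [div_le_iff₀ hKR] at h1
    have h2 : ((2 ^ b : ℕ) : ℝ) ≤ ((K * q : ℕ) : ℝ) := by push_cast; linarith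
    exact_mod_cast h2
  have hupp : ∀ q ∈ A, K * q < 2 ^ (b + 1) := by
    intro q hq
    have h1 := hq.2.2
    rw [hX, ← mul_div_assoc, lt_div_iff₀ hKR] at h1
    have h2 : ((K * q : ℕ) : ℝ) < ((2 ^ (b + 1) : ℕ) : ℝ) := by
      push_cast
      rw [pow_succ]
      linarith
    exact_mod_cast h2
  have hcov : A ⊆ ({q | q ∈ A ∧ K * q + a ∈ R} ∪ {q | q ∈ A ∧ (q : ℤ) ∈ Z}) ∪
      {q | q ∈ A ∧ 2 ^ (b + 1) ≤ K * q + a} := by
    intro q hq
    by_cases h1 : 2 ^ (b + 1) ≤ K * q + a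
    · exact Or.inr ⟨hq, h1⟩
    · push Not at h1
      left
      by_cases h2 : K * q + a ∈ S
      · left
        refine ⟨hq, ?_, h1, h2, ?_⟩
        · have := hlow q hq
          omega
        · rw [Nat.mul_add_mod, Nat.mod_eq_of_lt ha]
      · right
        exact ⟨hq, hZ q hq.2.2.le hq.1 h2⟩
  have h1 : ({q | q ∈ A ∧ K * q + a ∈ R} : Set ℕ).ncard ≤ R.ncard := by
    refine Set.ncard_le_ncard_of_injOn (fun q => K * q + a) (fun q hq => hq.2) ?_ hRf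
    intro q _ q' _ hqq
    have h3 : K * q + a = K * q' + a := hqq
    have h4 : K * q = K * q' := by omega
    exact Nat.eq_of_mul_eq_mul_left hK h4
  have h2 : ({q | q ∈ A ∧ (q : ℤ) ∈ Z} : Set ℕ).ncard ≤ Z.ncard := by
    refine Set.ncard_le_ncard_of_injOn (fun q => (q : ℤ)) (fun q hq => hq.2) ?_ hZf
    intro q _ q' _ hqq
    have h3 : (q : ℤ) = (q' : ℤ) := hqq
    exact_mod_cast h3
  have h3 : ({q | q ∈ A ∧ 2 ^ (b + 1) ≤ K * q + a} : Set ℕ).ncard ≤ 1 := by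
    rw [Set.ncard_le_one (hAf.subset fun q hq => hq.1)]
    rintro q ⟨hq, hq'⟩ r ⟨hr, hr'⟩
    by_contra hne
    rcases lt_or_gt_of_ne hne with h4 | h4
    · have h5 : K * (q + 1) ≤ K * r := Nat.mul_le_mul_left K h4
      have h6 := hupp r hr
      rw [Nat.mul_succ] at h5
      omega
    · have h5 : K * (r + 1) ≤ K * q := Nat.mul_le_mul_left K h4
      have h6 := hupp q hq
      rw [Nat.mul_succ] at h5
      omega
  have h4 : A.ncard ≤ R.ncard + Z.ncard + 1 := by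
    refine (Set.ncard_le_ncard hcov ?_).trans ?_
    · exact hAf.subset (by
        rintro q ((hq | hq) | hq)
        · exact hq.1
        · exact hq.1
        · exact hq.1)
    · refine (Set.ncard_union_le _ _).trans ?_
      have h5 := Set.ncard_union_le ({q | q ∈ A ∧ K * q + a ∈ R} : Set ℕ)
        {q | q ∈ A ∧ (q : ℤ) ∈ Z}
      omega
  exact_mod_cast h4

theorem lim_conv {S : Set ℕ} {D D₀ C u₀ : ℝ} {lo : ℕ} (hL : Lim S D)
    (h : ∀ u : ℝ, u₀ ≤ u → (lo : ℝ) ≤ 83 / 100 * u →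
      |Pool.Agent.Lib.MP_edb5be_nt.ND.Gd S u - D₀| ≤ C * u ^ (-(1 / 38) : ℝ)) : D₀ = D := by
  have h1 : Filter.Tendsto (fun L : ℕ => P L S) Filter.atTop (nhds D₀) := by
    have h2 : Filter.Tendsto (fun L : ℕ => C * (L : ℝ) ^ (-(1 / 38) : ℝ)) Filter.atTop
        (nhds 0) := by
      have h3 := (tendsto_rpow_neg_atTop (show (0 : ℝ) < 1 / 38 by norm_num)).comp
        (tendsto_natCast_atTop_atTop (R := ℝ))
      have h4 := h3.const_mul C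
      rw [mul_zero] at h4
      exact h4
    rw [tendsto_iff_norm_sub_tendsto_zero]
    refine squeeze_zero' (Filter.Eventually.of_forall fun L => norm_nonneg _) ?_ h2
    filter_upwards [Filter.eventually_ge_atTop (max ⌈u₀⌉₊ (2 * lo))] with L hL'
    have h5 : u₀ ≤ (L : ℝ) :=
      le_trans (Nat.le_ceil u₀) (by exact_mod_cast le_trans (le_max_left _ _) hL')
    have h6 : ((2 * lo : ℕ) : ℝ) ≤ L := by exact_mod_cast le_trans (le_max_right _ _) hL'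
    push_cast at h6
    have h7 := h L h5 (by nlinarith [(Nat.cast_nonneg lo : (0 : ℝ) ≤ lo)])
    rw [Gd_eq_P] at h7
    rw [Real.norm_eq_abs]
    exact h7
  exact tendsto_nhds_unique h1 hL

/-- **Row CLS.** -/
theorem cls (h4 : Pool.Agent.Lib.MP_edb5be_nt.CO.T4Statement)
    (hC : Pool.Agent.Lib.MP_edb5be_nt.ND.ConvStatement) : ClsStatement := by
  obtain ⟨C₄, hC₄, h4⟩ := h4
  obtain ⟨C₅, u₀, hC₅, h5⟩ := hC
  refine ⟨2 * C₅ + 96 * C₄ + 30, max 128 (2 * ⌈u₀⌉₊), by linarith, ?_⟩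
  intro S D lo b j m a hb hS hD hlo hj hm ha
  set K : ℕ := 2 ^ j * 3 ^ m with hK
  have hK0 : 0 < K := by positivity
  have hKR : (0 : ℝ) < K := by exact_mod_cast hK0
  have hb1 : 128 ≤ b := le_trans (le_max_left _ _) hb
  have hb2 : 2 * ⌈u₀⌉₊ ≤ b := le_trans (le_max_right _ _) hb
  have hb1R : (128 : ℝ) ≤ b := by exact_mod_cast hb1
  have hb0 : (0 : ℝ) < b := by linarith
  -- the seventh root
  obtain ⟨t, ht⟩ : ∃ t : ℝ, t = (b : ℝ) ^ (1 / 7 : ℝ) := ⟨_, rfl⟩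
  rw [← ht] at hj hm
  have ht7 : t ^ 7 = b := by
    rw [ht, ← Real.rpow_natCast, ← Real.rpow_mul hb0.le]
    norm_num
  have ht2 : 2 ≤ t := by
    by_contra hcon
    push Not at hcon
    have ht0 : 0 ≤ t := by rw [ht]; positivity
    have h6 : t ^ 7 < 2 ^ 7 := by gcongr
    rw [ht7] at h6
    norm_num at h6
    linarith
  have ht60 : 60 * t ≤ b := by
    have h6 : (2 : ℝ) ^ 6 ≤ t ^ 6 := by gcongr
    rw [← ht7]
    nlinarith
  -- the scale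
  have hU : (0 : ℝ) < 2 ^ b / K := by positivity
  obtain ⟨u, hu⟩ : ∃ u : ℝ, u = Real.logb 2 (2 ^ b / K) := ⟨_, rfl⟩
  have hu2 : (2 : ℝ) ^ u = 2 ^ b / K := by
    rw [hu]
    exact Real.rpow_logb (by norm_num) (by norm_num) hU
  have hKle : (K : ℝ) ≤ (2 : ℝ) ^ ((j : ℝ) + 2 * m) := by
    have h6 : (2 : ℝ) ^ ((j : ℝ) + 2 * m) = 2 ^ j * 4 ^ m := by
      rw [show ((j : ℝ) + 2 * m) = ((j + 2 * m : ℕ) : ℝ) by push_cast; ring,
        Real.rpow_natCast, pow_add, pow_mul]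
      norm_num
    rw [h6, hK]
    push_cast
    gcongr
    norm_num
  have hub : 95 / 100 * (b : ℝ) ≤ u := by
    rw [hu, Real.le_logb_iff_rpow_le (by norm_num) hU, le_div_iff₀ hKR]
    calc (2 : ℝ) ^ (95 / 100 * (b : ℝ)) * K
        ≤ (2 : ℝ) ^ (95 / 100 * (b : ℝ)) * (2 : ℝ) ^ ((j : ℝ) + 2 * m) := by gcongr
      _ = (2 : ℝ) ^ (95 / 100 * (b : ℝ) + ((j : ℝ) + 2 * m)) :=
          (Real.rpow_add (by norm_num) _ _).symm
      _ ≤ (2 : ℝ) ^ (b : ℝ) := by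
          apply Real.rpow_le_rpow_of_exponent_le (by norm_num)
          linarith
      _ = 2 ^ b := Real.rpow_natCast 2 b
  have hu0 : 0 < u := by linarith
  have hloR : (lo : ℝ) ≤ 4 / 10 * b := by
    have : ((10 * lo : ℕ) : ℝ) ≤ ((4 * b : ℕ) : ℝ) := by exact_mod_cast hlo
    push_cast at this
    linarith
  have huu : u₀ ≤ u := by
    have h6 : u₀ ≤ ⌈u₀⌉₊ := Nat.le_ceil u₀
    have h7 : ((2 * ⌈u₀⌉₊ : ℕ) : ℝ) ≤ b := by exact_mod_cast hb2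
    push_cast at h7
    linarith
  -- the density
  have hInv : Pool.Agent.Lib.MP_edb5be_nt.ND.InvA true S lo := by
    intro n hn
    rw [T_true']
    exact hS n hn
  obtain ⟨D₀, -, -, hD₀⟩ := h5 true S lo hInv
  have hDD : D₀ = D := lim_conv hD hD₀
  subst hDD
  have hG := hD₀ u huu (by linarith)
  -- the exceptional set
  obtain ⟨X, hX⟩ : ∃ X : ℝ, X = 2 * (2 ^ b / K) := ⟨_, rfl⟩
  have hXu : (2 : ℝ) ^ (u + 1) = X := by
    rw [Real.rpow_add (by norm_num), hu2, hX, Real.rpow_one]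
    ring
  have hX2 : 2 ≤ X := by
    have h6 : (1 : ℝ) ≤ (2 : ℝ) ^ u := Real.one_le_rpow (by norm_num) hu0.le
    rw [hX, ← hu2]
    linarith
  obtain ⟨Z, hZ⟩ : ∃ Z : Set ℤ, Z = {n : ℤ | |(n : ℝ)| ≤ X ∧
    ¬ (n ∈ toZ S ↔ 2 ^ j * 3 ^ m * n + (a : ℤ) ∈ toZ S)} := ⟨_, rfl⟩
  have hZ4 := h4 ((2 : ℝ) ^ lo) (toZ S) (one_le_pow₀ (by norm_num)) (toZ_inv hS) j m a X hX2
  rw [← hZ] at hZ4
  have hZf : Z.Finite := by
    refine (Set.finite_Icc (-⌈X⌉) ⌈X⌉).subset ?_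
    intro n hn
    rw [hZ] at hn
    have h6 := abs_le.1 hn.1
    constructor
    · have h7 : ((-⌈X⌉ : ℤ) : ℝ) ≤ (n : ℝ) := by
        push_cast
        linarith [Int.le_ceil X]
      exact_mod_cast h7
    · have h7 : (n : ℝ) ≤ ((⌈X⌉ : ℤ) : ℝ) := h6.2.trans (Int.le_ceil X)
      exact_mod_cast h7
  have hcnt := cls_count S b K a ha X hX Z hZf (by
    intro n hn1 hn2 hn3
    rw [hZ]
    refine ⟨?_, ?_⟩
    · have h6 : |(((n : ℕ) : ℤ) : ℝ)| = n := by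
        push_cast
        exact abs_of_nonneg (Nat.cast_nonneg n)
      rw [h6]
      exact hn1
    · intro hcon
      have h6 := hcon.1 ((mem_toZ S n).2 hn2)
      rw [show (2 : ℤ) ^ j * 3 ^ m * (n : ℤ) + (a : ℤ) = ((K * n + a : ℕ) : ℤ) by
        rw [hK]; push_cast; ring, mem_toZ] at h6
      exact hn3 h6)
  -- the main term
  have hGd : ({N : ℕ | N ∈ S ∧ (2 ^ b / K : ℝ) ≤ N ∧ (N : ℝ) < X}.ncard : ℝ) =
      Pool.Agent.Lib.MP_edb5be_nt.ND.Gd S u * (2 ^ b / K) := by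
    unfold Pool.Agent.Lib.MP_edb5be_nt.ND.Gd
    rw [hXu, hu2, div_mul_cancel₀ _ hU.ne']
  rw [hGd] at hcnt
  have hG1 : D₀ - C₅ * u ^ (-(1 / 38) : ℝ) ≤ Pool.Agent.Lib.MP_edb5be_nt.ND.Gd S u := by
    have := (abs_le.1 hG).1
    linarith
  -- the error terms
  obtain ⟨β, hβ⟩ : ∃ β : ℝ, β = (b : ℝ) ^ (-(1 / 38) : ℝ) := ⟨_, rfl⟩
  have hβ0 : 0 < β := by rw [hβ]; positivity
  have hbβ : 1 / (b : ℝ) ≤ β := by
    rw [hβ, one_div, ← Real.rpow_neg_one]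
    exact Real.rpow_le_rpow_of_exponent_le (by linarith) (by norm_num)
  have e1 : u ^ (-(1 / 38) : ℝ) ≤ 2 * β := by
    have h6 : u ^ (-(1 / 38) : ℝ) ≤ (95 / 100 * (b : ℝ)) ^ (-(1 / 38) : ℝ) :=
      Real.rpow_le_rpow_of_nonpos (by positivity) hub (by norm_num)
    rw [Real.mul_rpow (by norm_num) hb0.le, ← hβ] at h6
    have h7 : (95 / 100 : ℝ) ^ (-(1 / 38) : ℝ) ≤ 2 := by
      have h8 : (95 / 100 : ℝ) ^ (-(1 / 38) : ℝ) ≤ (95 / 100 : ℝ) ^ (-1 : ℝ) :=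
        Real.rpow_le_rpow_of_exponent_ge (by norm_num) (by norm_num) (by norm_num)
      refine h8.trans ?_
      rw [Real.rpow_neg_one]
      norm_num
    nlinarith
  have hexp : ∀ x : ℝ, 7 / 100 * (b : ℝ) ≤ x → (2 : ℝ) ^ (-x) ≤ 30 * β := by
    intro x hx
    have hx0 : 0 < x := by nlinarith
    have h6 : x * Real.log 2 + 1 ≤ (2 : ℝ) ^ x := by
      rw [Real.rpow_def_of_pos (by norm_num), mul_comm (Real.log 2)]
      exact Real.add_one_le_exp _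
    have h7 : (0.69 : ℝ) ≤ Real.log 2 := by linarith [Real.log_two_gt_d9]
    have h8 : 4 / 100 * (b : ℝ) ≤ (2 : ℝ) ^ x := by nlinarith
    rw [Real.rpow_neg (by norm_num)]
    calc ((2 : ℝ) ^ x)⁻¹ ≤ (4 / 100 * (b : ℝ))⁻¹ := by
          apply inv_anti₀ (by positivity) h8
      _ = 25 * (1 / (b : ℝ)) := by field_simp; norm_num
      _ ≤ 30 * β := by nlinarith
  have hlo2 : ((2 : ℝ) ^ lo) = (2 : ℝ) ^ (lo : ℝ) := (Real.rpow_natCast 2 lo).symm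
  have e2 : (2 : ℝ) ^ lo * Real.sqrt X ≤ (2 ^ b / K) * (30 * β * 2) := by
    have h6 : Real.sqrt X = (2 : ℝ) ^ ((u + 1) / 2) := by
      rw [← hXu, Real.sqrt_eq_rpow, ← Real.rpow_mul (by norm_num)]
      congr 1
      ring
    rw [h6, hlo2, ← Real.rpow_add (by norm_num), ← hu2]
    have h7 : (lo : ℝ) + (u + 1) / 2 = u + 1 / 2 + -(u / 2 - lo) := by ring
    rw [h7, Real.rpow_add (by norm_num), Real.rpow_add (by norm_num)]
    have h8 := hexp (u / 2 - lo) (by linarith)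
    have h9 : (2 : ℝ) ^ (1 / 2 : ℝ) ≤ 2 := by
      calc (2 : ℝ) ^ (1 / 2 : ℝ) ≤ (2 : ℝ) ^ (1 : ℝ) :=
            Real.rpow_le_rpow_of_exponent_le (by norm_num) (by norm_num)
        _ = 2 := Real.rpow_one 2
    have h10 : (0 : ℝ) < (2 : ℝ) ^ u := by positivity
    have h11 : (0 : ℝ) < (2 : ℝ) ^ (1 / 2 : ℝ) := by positivity
    calc (2 : ℝ) ^ u * (2 : ℝ) ^ (1 / 2 : ℝ) * (2 : ℝ) ^ (-(u / 2 - lo))
        ≤ (2 : ℝ) ^ u * 2 * (30 * β) := by gcongr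
      _ = (2 : ℝ) ^ u * (30 * β * 2) := by ring
  have e3 : (2 : ℝ) ^ lo ≤ (2 ^ b / K) * (30 * β) := by
    rw [hlo2, ← hu2]
    have h7 : (lo : ℝ) = u + -(u - lo) := by ring
    have h8 := hexp (u - lo) (by linarith)
    calc (2 : ℝ) ^ (lo : ℝ) = (2 : ℝ) ^ u * (2 : ℝ) ^ (-(u - lo)) := by
          rw [← Real.rpow_add (by norm_num), ← h7]
      _ ≤ (2 : ℝ) ^ u * (30 * β) := by gcongr
  have ht0 : 0 < t := by linarith
  have htβ : 1 / t ≤ β := by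
    rw [hβ, ht, one_div, ← Real.rpow_neg hb0.le]
    exact Real.rpow_le_rpow_of_exponent_le (by linarith) (by norm_num)
  have e4 : Real.sqrt ((((j : ℝ) + m) ^ 2 + Real.log (2 + |(((a : ℕ) : ℤ) : ℝ)|)) /
      Real.log X) ≤ 3 * β := by
    rw [Real.sqrt_le_left (by positivity)]
    have hl2 : Real.log 2 ≤ 0.7 := by linarith [Real.log_two_lt_d9]
    have hl2' : (0.69 : ℝ) ≤ Real.log 2 := by linarith [Real.log_two_gt_d9]
    have h6 : |(((a : ℕ) : ℤ) : ℝ)| = a := by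
      push_cast
      exact abs_of_nonneg (Nat.cast_nonneg a)
    have h7 : Real.log (2 + |(((a : ℕ) : ℤ) : ℝ)|) ≤ 3 * t := by
      rw [h6]
      have h8 : (a : ℝ) + 1 ≤ K := by exact_mod_cast ha
      have h9 : (1 : ℝ) ≤ K := by exact_mod_cast hK0
      have h10 : 2 + (a : ℝ) ≤ (2 : ℝ) ^ (1 + ((j : ℝ) + 2 * m)) := by
        rw [Real.rpow_add (by norm_num), Real.rpow_one]
        linarith
      have h11 : Real.log (2 + (a : ℝ)) ≤ (1 + ((j : ℝ) + 2 * m)) * Real.log 2 := by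
        rw [← Real.log_rpow (by norm_num)]
        exact Real.log_le_log (by positivity) h10
      nlinarith
    have h8 : 65 / 100 * (b : ℝ) ≤ Real.log X := by
      rw [← hXu, Real.log_rpow (by norm_num)]
      nlinarith
    have h9 : (((j : ℝ) + m) ^ 2) ≤ 4 * t ^ 2 := by
      have h10 : (0 : ℝ) ≤ (j : ℝ) + m := by positivity
      have h11 : (j : ℝ) + m ≤ 2 * t := by linarith
      nlinarith
    have h10 : ((j : ℝ) + m) ^ 2 + Real.log (2 + |(((a : ℕ) : ℤ) : ℝ)|) ≤ 11 / 2 * t ^ 2 := by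
      nlinarith
    rw [div_le_iff₀ (by linarith)]
    have h11 : 1 ≤ β * t := by
      rw [div_le_iff₀ ht0] at htβ
      exact htβ
    have h12 : 1 ≤ (β * t) ^ 2 := one_le_pow₀ h11
    have h13 : t ^ 2 ≤ t ^ 5 := pow_le_pow_right₀ (by linarith) (by norm_num)
    have h14 : t ^ 5 ≤ β ^ 2 * b := by
      rw [← ht7]
      calc t ^ 5 = 1 * t ^ 5 := by ring
        _ ≤ (β * t) ^ 2 * t ^ 5 := by gcongr
        _ = β ^ 2 * t ^ 7 := by ring
    calc ((j : ℝ) + m) ^ 2 + Real.log (2 + |(((a : ℕ) : ℤ) : ℝ)|) ≤ 11 / 2 * t ^ 2 := h10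
      _ ≤ 11 / 2 * (β ^ 2 * b) := by linarith
      _ ≤ (3 * β) ^ 2 * (65 / 100 * (b : ℝ)) := by
          have h15 : 0 ≤ β ^ 2 * b := by positivity
          nlinarith
      _ ≤ (3 * β) ^ 2 * Real.log X := by gcongr
  have hZ5 : (Z.ncard : ℝ) ≤ 96 * C₄ * β * (2 ^ b / K) := by
    refine hZ4.trans ?_
    have hX0 : 0 ≤ X := by linarith
    calc C₄ * (X * Real.sqrt ((((j : ℝ) + m) ^ 2 + Real.log (2 + |(((a : ℕ) : ℤ) : ℝ)|)) /
          Real.log X) + 2 ^ lo * Real.sqrt X + 2 ^ lo)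
        ≤ C₄ * (X * (3 * β) + (2 ^ b / K) * (30 * β * 2) + (2 ^ b / K) * (30 * β)) := by
          gcongr
      _ = 96 * C₄ * β * (2 ^ b / K) := by rw [hX]; ring
  have h1 : (1 : ℝ) ≤ (2 ^ b / K) * (30 * β) :=
    (one_le_pow₀ (by norm_num)).trans e3
  have hKc : ((2 : ℝ) ^ j * 3 ^ m) = (K : ℝ) := by rw [hK]; push_cast; ring
  rw [hKc, ← hβ]
  have hmain : (D₀ - C₅ * (2 * β)) * (2 ^ b / K) ≤
      Pool.Agent.Lib.MP_edb5be_nt.ND.Gd S u * (2 ^ b / K) := by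
    apply mul_le_mul_of_nonneg_right _ hU.le
    have : C₅ * u ^ (-(1 / 38) : ℝ) ≤ C₅ * (2 * β) := mul_le_mul_of_nonneg_left e1 hC₅.le
    linarith
  calc 2 ^ b / (K : ℝ) * (D₀ - (2 * C₅ + 96 * C₄ + 30) * β)
      = (D₀ - C₅ * (2 * β)) * (2 ^ b / K) - 96 * C₄ * β * (2 ^ b / K) -
        (2 ^ b / K) * (30 * β) := by ring
    _ ≤ ({M : ℕ | 2 ^ b ≤ M ∧ M < 2 ^ (b + 1) ∧ M ∈ S ∧ M % K = a}.ncard : ℝ) := by
        linarith

end Pool.Agent.Lib.MP_0a5adf_nt.WT.Div
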