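import Pool.Agent.Lib.MP_0a5adf_nt.WT.DivDefs

/-!
# Row CND: condensation
-/

set_option autoImplicit false

namespace Pool.Agent.Lib.MP_0a5adf_nt.WT.Div

theorem cnd : CndStatement := by
  intro ψ z₀ hψ hz hns hs
  apply hns
  have hpow : ∀ b : ℕ, (1 : ℝ) ≤ 2 ^ b := fun b => one_le_pow₀ (by norm_num)
  have hpos : ∀ b : ℕ, 0 < ψ (2 ^ b) := fun b => hψ.pos _ (hpow b)
  set u : ℕ → ℝ := fun k => ((4 ^ k * z₀ : ℕ) : ℝ) / max 1 (ψ (2 ^ (4 ^ k * z₀))) with hu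
  have hmax : ∀ k : ℕ, 0 < max 1 (ψ (2 ^ (4 ^ k * z₀))) := fun k =>
    lt_max_of_lt_left one_pos
  have hu0 : ∀ k, 0 ≤ u k := fun k => div_nonneg (Nat.cast_nonneg _) (hmax k).le
  have hN1 : ∀ k : ℕ, (1 : ℝ) ≤ ((4 ^ k * z₀ : ℕ) : ℝ) := by
    intro k
    have : 1 ≤ 4 ^ k * z₀ := Nat.one_le_iff_ne_zero.mpr (by positivity)
    exact_mod_cast this
  -- from some `k₀` on the maximum is `ψ`
  obtain ⟨k₀, hk₀⟩ : ∃ k₀ : ℕ, ∀ k ≥ k₀, u k < 1 := by
    have h := hs.tendsto_atTop_zero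
    exact Filter.eventually_atTop.mp (h.eventually_lt_const one_pos)
  have hψk : ∀ k ≥ k₀, max 1 (ψ (2 ^ (4 ^ k * z₀))) = ψ (2 ^ (4 ^ k * z₀)) := by
    intro k hk
    have h1 := hk₀ k hk
    rw [hu] at h1
    simp only at h1
    rw [div_lt_one (hmax k)] at h1
    apply max_eq_right
    by_contra h2
    push Not at h2
    rw [max_eq_left h2.le] at h1
    exact absurd h1 (not_lt.mpr (hN1 k))
  have hblock : ∀ k ≥ k₀, ∑ b ∈ Finset.Ico (4 ^ k * z₀) (4 ^ (k + 1) * z₀), 1 / ψ (2 ^ b) ≤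
      3 * u k := by
    intro k hk
    have h1 : ∀ b ∈ Finset.Ico (4 ^ k * z₀) (4 ^ (k + 1) * z₀),
        1 / ψ (2 ^ b) ≤ 1 / ψ (2 ^ (4 ^ k * z₀)) := by
      intro b hb
      rw [Finset.mem_Ico] at hb
      apply one_div_le_one_div_of_le (hpos _)
      exact hψ.mono _ _ (hpow _) (pow_le_pow_right₀ (by norm_num) hb.1)
    refine (Finset.sum_le_sum h1).trans ?_
    rw [Finset.sum_const, Nat.card_Ico, nsmul_eq_mul]
    have h2 : 4 ^ (k + 1) * z₀ - 4 ^ k * z₀ = 3 * (4 ^ k * z₀) := by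
      rw [pow_succ]
      have : 4 ^ k * 4 * z₀ = 3 * (4 ^ k * z₀) + 4 ^ k * z₀ := by ring
      omega
    rw [h2, hu]
    simp only
    rw [hψk k hk]
    push_cast
    apply le_of_eq
    ring
  have hsum : ∀ K ≥ k₀, ∑ b ∈ Finset.range (4 ^ K * z₀), 1 / ψ (2 ^ b) ≤
      ∑ b ∈ Finset.range (4 ^ k₀ * z₀), 1 / ψ (2 ^ b) + 3 * ∑ k ∈ Finset.range K, u k := by
    intro K hK
    induction K, hK using Nat.le_induction with
    | base =>
      have : 0 ≤ ∑ k ∈ Finset.range k₀, u k := Finset.sum_nonneg fun k _ => hu0 k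
      linarith
    | succ K hK ih =>
      have h1 : 4 ^ K * z₀ ≤ 4 ^ (K + 1) * z₀ := by
        apply Nat.mul_le_mul_right
        exact Nat.pow_le_pow_right (by norm_num) (Nat.le_succ K)
      rw [← Finset.sum_range_add_sum_Ico _ h1, Finset.sum_range_succ]
      have h2 := hblock K hK
      linarith
  apply summable_of_sum_range_le (c := ∑ b ∈ Finset.range (4 ^ k₀ * z₀), 1 / ψ (2 ^ b) +
    3 * ∑' k, u k)
  · intro b
    exact (one_div_pos.mpr (hpos b)).le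
  · intro n
    have h1 : n ≤ 4 ^ max n k₀ * z₀ := by
      have h2 : n < 4 ^ n := Nat.lt_pow_self (by norm_num)
      have h3 : 4 ^ n ≤ 4 ^ max n k₀ := Nat.pow_le_pow_right (by norm_num) (le_max_left _ _)
      nlinarith
    have h4 : ∑ b ∈ Finset.range n, 1 / ψ (2 ^ b) ≤
        ∑ b ∈ Finset.range (4 ^ max n k₀ * z₀), 1 / ψ (2 ^ b) := by
      apply Finset.sum_le_sum_of_subset_of_nonneg
      · intro x hx
        rw [Finset.mem_range] at hx ⊢
        omega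
      · intro b _ _
        exact (one_div_pos.mpr (hpos b)).le
    have h5 := hsum (max n k₀) (le_max_right _ _)
    have h6 : ∑ k ∈ Finset.range (max n k₀), u k ≤ ∑' k, u k :=
      hs.sum_le_tsum _ (fun k _ => hu0 k)
    linarith

end Pool.Agent.Lib.MP_0a5adf_nt.WT.Div
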