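import Pool.Agent.Lib.MP_0a5adf_nt.WT.DivDefs

/-!
# Row CSZ: Cauchy–Schwarz on the block `z`
-/

set_option autoImplicit false

namespace Pool.Agent.Lib.MP_0a5adf_nt.WT.Div

open Finset Pool.Agent.Lib.MP_0a5adf_nt.H89

namespace CszH

theorem vis_mono {E E' : Set ℕ} (h : E ⊆ E') (n N : ℕ) : vis E n N ≤ vis E' n N := by
  classical
  unfold vis
  refine Finset.card_le_card fun i hi => ?_
  rw [mem_filter] at hi ⊢
  exact ⟨hi.1, h hi.2⟩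

theorem vis_le (E : Set ℕ) (n N : ℕ) : vis E n N ≤ n := by
  classical
  unfold vis
  exact (card_filter_le _ _).trans (by simp)

theorem exists_of_vis {E : Set ℕ} {n N : ℕ} (h : vis E n N ≠ 0) : ∃ i < n, T^[i] N ∈ E := by
  classical
  unfold vis at h
  obtain ⟨i, hi⟩ := Finset.card_pos.mp (Nat.pos_of_ne_zero h)
  rw [mem_filter, mem_range] at hi
  exact ⟨i, hi.1, hi.2⟩

theorem mem_of_path {S : Set ℕ} {lo : ℕ} (hS : Inv S lo) (i : ℕ) :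
    ∀ N : ℕ, (∀ k ≤ i, 2 ^ lo ≤ T^[k] N) → T^[i] N ∈ S → N ∈ S := by
  induction i with
  | zero => intro N _ h; exact h
  | succ i ih =>
    intro N h hi
    have h0 : 2 ^ lo ≤ N := h 0 (Nat.zero_le _)
    rw [hS N h0]
    refine ih (T N) (fun k hk => ?_) ?_
    · have := h (k + 1) (Nat.succ_le_succ hk)
      rwa [Function.iterate_succ_apply] at this
    · rwa [Function.iterate_succ_apply] at hi

open Classical in
theorem ncard_eq (z : ℕ) (p : ℕ → Prop) :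
    {N : ℕ | 2 ^ z ≤ N ∧ N < 2 ^ (z + 1) ∧ p N}.ncard =
      ((Ico (2 ^ z) (2 ^ (z + 1))).filter p).card := by
  rw [← Set.ncard_coe_finset]
  congr 1
  ext N
  simp [and_assoc]

open Classical in
theorem card_eq_P (z : ℕ) (B : Set ℕ) :
    (((Ico (2 ^ z) (2 ^ (z + 1))).filter fun N => N ∈ B).card : ℝ) = 2 ^ z * P z B := by
  unfold P
  rw [ncard_eq, mul_div_cancel₀]
  positivity

open Classical in
/-- the counting part -/
theorem main {n z : ℕ} {V U : ℕ → ℕ} {G B : ℕ → Prop} {F b s : ℝ}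
    (hV : ∀ N ∈ Ico (2 ^ z) (2 ^ (z + 1)), V N ≠ 0 → G N ∨ B N)
    (hn : ∀ N, V N ≤ n) (hU : ∀ N, V N ≤ U N)
    (hB : (((Ico (2 ^ z) (2 ^ (z + 1))).filter B).card : ℝ) ≤ b)
    (hF : F ≤ ∑ N ∈ Ico (2 ^ z) (2 ^ (z + 1)), (V N : ℝ))
    (hs : ∑ N ∈ Ico (2 ^ z) (2 ^ (z + 1)), (U N : ℝ) ^ 2 ≤ s) (h0 : 0 ≤ F - n * b) :
    (F - n * b) ^ 2 ≤ (((Ico (2 ^ z) (2 ^ (z + 1))).filter G).card : ℝ) * s := by
  set A := Ico (2 ^ z) (2 ^ (z + 1)) with hA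
  have h1 : ∑ N ∈ A, (V N : ℝ) ≤ ∑ N ∈ A.filter G, (V N : ℝ) + ∑ N ∈ A.filter B, (V N : ℝ) := by
    rw [Finset.sum_filter, Finset.sum_filter, ← Finset.sum_add_distrib]
    refine Finset.sum_le_sum fun N hN => ?_
    by_cases hv : V N = 0
    · rw [hv]; simp
    · rcases hV N hN hv with hg | hb
      · rw [if_pos hg]
        have : (0 : ℝ) ≤ if B N then (V N : ℝ) else 0 := by split_ifs <;> positivity
        linarith
      · rw [if_pos hb]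
        have : (0 : ℝ) ≤ if G N then (V N : ℝ) else 0 := by split_ifs <;> positivity
        linarith
  have h2 : ∑ N ∈ A.filter B, (V N : ℝ) ≤ n * b := by
    calc ∑ N ∈ A.filter B, (V N : ℝ) ≤ ∑ N ∈ A.filter B, (n : ℝ) :=
          Finset.sum_le_sum fun N _ => by exact_mod_cast hn N
      _ = (A.filter B).card * (n : ℝ) := by rw [Finset.sum_const, nsmul_eq_mul]
      _ ≤ b * n := mul_le_mul_of_nonneg_right hB (Nat.cast_nonneg _)
      _ = n * b := mul_comm _ _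
  have h3 : F - n * b ≤ ∑ N ∈ A.filter G, (V N : ℝ) := by linarith
  have h4 : (F - n * b) ^ 2 ≤ (∑ N ∈ A.filter G, (V N : ℝ)) ^ 2 := pow_le_pow_left₀ h0 h3 2
  have h5 : (∑ N ∈ A.filter G, (V N : ℝ)) ^ 2 ≤
      ((A.filter G).card : ℝ) * ∑ N ∈ A.filter G, (V N : ℝ) ^ 2 := sq_sum_le_card_mul_sum_sq
  have h6 : ∑ N ∈ A.filter G, (V N : ℝ) ^ 2 ≤ s := by
    refine le_trans ?_ hs
    refine le_trans (Finset.sum_le_sum fun N _ => ?_)
      (Finset.sum_le_sum_of_subset_of_nonneg (Finset.filter_subset _ _) fun _ _ _ => by positivity)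
    have : (V N : ℝ) ≤ U N := by exact_mod_cast hU N
    exact pow_le_pow_left₀ (Nat.cast_nonneg _) this 2
  exact h4.trans (h5.trans (mul_le_mul_of_nonneg_left h6 (Nat.cast_nonneg _)))

end CszH

open CszH

/-- Row CSZ. -/
theorem csz (hfst : FstStatement) (hsec : SecStatement) (hdip : DipStatement) : CszStatement := by
  classical
  obtain ⟨c₁, C₁, z₁, hc₁, hC₁, hfst⟩ := hfst
  obtain ⟨C₂, z₂, hC₂, hdip⟩ := hdip
  obtain ⟨z₃, hz₃⟩ := exists_nat_ge ((2 * (C₁ + C₂) / c₁) ^ 2)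
  refine ⟨c₁ ^ 2 / 480, C₁ + 1, max (max z₁ z₂) (max z₃ 1000), by positivity, by positivity, ?_⟩
  intro S D lam lo z hz hS hD hlo hlam1 hlam2
  have hz1 : z₁ ≤ z := (le_max_left _ _).trans ((le_max_left _ _).trans hz)
  have hz2 : z₂ ≤ z := (le_max_right _ _).trans ((le_max_left _ _).trans hz)
  have hz3 : z₃ ≤ z := (le_max_left _ _).trans ((le_max_right _ _).trans hz)
  have hz4 : 1000 ≤ z := (le_max_right _ _).trans ((le_max_right _ _).trans hz)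
  have hzr : (1000 : ℝ) ≤ z := by exact_mod_cast hz4
  have hz0 : (0 : ℝ) < z := by linarith
  have hlam0 : 0 < lam := by linarith
  have hP0 : 0 ≤ P z (H z lo lam ∩ S) := by unfold P; positivity
  by_cases hΔ : D - (C₁ + 1) * (z : ℝ) ^ (-(1 / 38) : ℝ) ≤ 0
  · rw [max_eq_left hΔ]
    simpa using hP0
  have hΔ' := (not_le.mp hΔ).le
  rw [max_eq_right hΔ']
  set Δ := D - (C₁ + 1) * (z : ℝ) ^ (-(1 / 38) : ℝ) with hΔdef
  set x : ℝ := (z : ℝ) / lam with hx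
  have hx0 : 0 < x := div_pos hz0 hlam0
  have hxz : 1 / (z : ℝ) ≤ x := by
    rw [hx, div_le_div_iff₀ hz0 hlam0, one_mul, ← sq]
    exact hlam2
  -- the window of times
  set n := 95 * z / 100 with hn
  have hnz : n ≤ z := by omega
  have hnr : (n : ℝ) ≤ z := by exact_mod_cast hnz
  have hj : n + jz z ≤ z := by
    have h1 : jz z ≤ z / 20 := by
      have h2 : ((jz z : ℕ) : ℝ) ≤ (z : ℝ) ^ (1 / 8 : ℝ) := Nat.floor_le (by positivity)
      have h3 : (z : ℝ) ^ (1 / 8 : ℝ) ≤ (z : ℝ) / 20 - 1 := by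
        have e1 : (z : ℝ) ^ (1 / 8 : ℝ) ≤ (z : ℝ) ^ (1 / 2 : ℝ) :=
          Real.rpow_le_rpow_of_exponent_le (by linarith) (by norm_num)
        rw [← Real.sqrt_eq_rpow] at e1
        have e2 : Real.sqrt z * Real.sqrt z = z := Real.mul_self_sqrt hz0.le
        have e3 : (30 : ℝ) ≤ Real.sqrt z := Real.le_sqrt_of_sq_le (by linarith)
        nlinarith
      have h4 : ((jz z : ℕ) : ℝ) ≤ (z : ℝ) / 20 - 1 := h2.trans h3
      have h5 : (20 : ℝ) * ((jz z : ℕ) : ℝ) + 20 ≤ z := by linarith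
      have h6 : 20 * jz z + 20 ≤ z := by exact_mod_cast h5
      omega
    omega
  -- the first moment
  have h1 := hfst S D lam lo z hz1 hS hD hlo hlam1 hlam2
  have h2 := hsec z (jz z) n lam hlam1 hj
  have h3 := hdip z lo hz2 hlo
  rw [ncard_eq] at h3
  have hV : ∀ N ∈ Ico (2 ^ z) (2 ^ (z + 1)), vis (Vr lam (jz z) ∩ S ∩ Win z) n N ≠ 0 →
      (N ∈ H z lo lam ∩ S) ∨ (∃ i < 95 * z / 100, T^[i] N ∈ Win z ∧ ∃ k ≤ i, T^[k] N < 2 ^ lo) := by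
    intro N _ hv
    obtain ⟨i, hi, ⟨⟨hvr, hs⟩, hw⟩⟩ := exists_of_vis hv
    by_cases hk : ∃ k ≤ i, T^[k] N < 2 ^ lo
    · exact Or.inr ⟨i, hi, hw, hk⟩
    · push Not at hk
      exact Or.inl ⟨⟨i, hk, hvr, hw⟩, mem_of_path hS i N hk hs⟩
  have h4 := main (z := z) (n := n) (V := fun N => vis (Vr lam (jz z) ∩ S ∩ Win z) n N)
    (U := fun N => vis (Vr lam (jz z)) n N) (G := fun N => N ∈ H z lo lam ∩ S)
    (B := fun N => ∃ i < 95 * z / 100, T^[i] N ∈ Win z ∧ ∃ k ≤ i, T^[k] N < 2 ^ lo)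
    hV (fun N => vis_le _ _ _)
    (fun N => vis_mono (fun M hM => hM.1.1) _ _) h3 h1 h2
  -- the size of the main term
  have hpw : (z : ℝ) ^ (-(1 / 2) : ℝ) ≤ (z : ℝ) ^ (-(1 / 38) : ℝ) :=
    Real.rpow_le_rpow_of_exponent_le (by linarith) (by norm_num)
  have hsq : 2 * (C₁ + C₂) / c₁ ≤ Real.sqrt z := by
    refine Real.le_sqrt_of_sq_le ?_
    exact hz₃.trans (by exact_mod_cast hz3)
  have hmain : c₁ / 2 * x * Δ ≤ c₁ * x * (D - C₁ * (z : ℝ) ^ (-(1 / 38) : ℝ)) - C₁ / (z : ℝ) ^ 2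
      - z * (C₂ / (z : ℝ) ^ 4) := by
    have e1 : D - C₁ * (z : ℝ) ^ (-(1 / 38) : ℝ) = Δ + (z : ℝ) ^ (-(1 / 38) : ℝ) := by
      rw [hΔdef]; ring
    rw [e1]
    have e2 : C₁ / (z : ℝ) ^ 2 + z * (C₂ / (z : ℝ) ^ 4) ≤ (C₁ + C₂) / (z : ℝ) ^ 2 := by
      have e3 : z * (C₂ / (z : ℝ) ^ 4) = C₂ / (z : ℝ) ^ 3 := by field_simp
      have e4 : C₂ / (z : ℝ) ^ 3 ≤ C₂ / (z : ℝ) ^ 2 := by
        refine div_le_div_of_nonneg_left hC₂.le (by positivity) ?_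
        exact pow_le_pow_right₀ (by linarith) (by norm_num)
      rw [e3, add_div]
      linarith
    have e5 : (C₁ + C₂) / (z : ℝ) ^ 2 ≤ c₁ * x * (z : ℝ) ^ (-(1 / 38) : ℝ) := by
      have e6 : (z : ℝ) ^ (-(1 / 2) : ℝ) = (Real.sqrt z)⁻¹ := by
        rw [Real.rpow_neg hz0.le, Real.sqrt_eq_rpow]
      have e7 : 0 < Real.sqrt z := Real.sqrt_pos.mpr hz0
      have e8 : (C₁ + C₂) / z ≤ c₁ * (Real.sqrt z)⁻¹ := by
        rw [div_le_iff₀ hc₁] at hsq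
        rw [← div_eq_mul_inv, div_le_div_iff₀ hz0 e7]
        have e9 : Real.sqrt z * Real.sqrt z = z := Real.mul_self_sqrt hz0.le
        nlinarith
      have e10 : (C₁ + C₂) / (z : ℝ) ^ 2 = 1 / z * ((C₁ + C₂) / z) := by field_simp
      rw [e10]
      calc 1 / (z : ℝ) * ((C₁ + C₂) / z) ≤ x * (c₁ * (Real.sqrt z)⁻¹) :=
            mul_le_mul hxz e8 (by positivity) hx0.le
        _ ≤ x * (c₁ * (z : ℝ) ^ (-(1 / 38) : ℝ)) := by
            rw [← e6]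
            exact mul_le_mul_of_nonneg_left (mul_le_mul_of_nonneg_left hpw hc₁.le) hx0.le
        _ = c₁ * x * (z : ℝ) ^ (-(1 / 38) : ℝ) := by ring
    have e11 : c₁ / 2 * x * Δ ≤ c₁ * x * Δ := by
      have : 0 ≤ c₁ * x * Δ := by positivity
      nlinarith
    linarith
  have hlow : 2 ^ z * (c₁ / 2 * x * Δ) ≤ 2 ^ z * (c₁ * ((z : ℝ) / lam) *
      (D - C₁ * (z : ℝ) ^ (-(1 / 38) : ℝ)) - C₁ / (z : ℝ) ^ 2) - n * (C₂ * 2 ^ z / (z : ℝ) ^ 4) := by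
    have e1 : (n : ℝ) * (C₂ * 2 ^ z / (z : ℝ) ^ 4) ≤ 2 ^ z * (z * (C₂ / (z : ℝ) ^ 4)) := by
      have : (n : ℝ) * (C₂ * 2 ^ z / (z : ℝ) ^ 4) = 2 ^ z * (n * (C₂ / (z : ℝ) ^ 4)) := by ring
      rw [this]
      have : (0 : ℝ) ≤ C₂ / (z : ℝ) ^ 4 := by positivity
      gcongr
    have e2 := mul_le_mul_of_nonneg_left hmain (show (0 : ℝ) ≤ 2 ^ z by positivity)
    rw [← hx]
    linarith
  have hlow0 : 0 ≤ 2 ^ z * (c₁ / 2 * x * Δ) := by positivity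
  have h5 := h4 (hlow0.trans hlow)
  rw [card_eq_P] at h5
  have h6 : (2 ^ z * (c₁ / 2 * x * Δ)) ^ 2 ≤
      2 ^ z * P z (H z lo lam ∩ S) * (60 * 2 ^ z * ((n : ℝ) / lam + ((n : ℝ) / lam) ^ 2)) :=
    (pow_le_pow_left₀ hlow0 hlow 2).trans h5
  have h7 : (n : ℝ) / lam + ((n : ℝ) / lam) ^ 2 ≤ x + x ^ 2 := by
    have e1 : (n : ℝ) / lam ≤ x := div_le_div_of_nonneg_right hnr hlam0.le
    have e2 : 0 ≤ (n : ℝ) / lam := by positivity
    have e3 := pow_le_pow_left₀ e2 e1 2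
    linarith
  have h8 : (c₁ / 2 * x * Δ) ^ 2 ≤ P z (H z lo lam ∩ S) * (60 * (x + x ^ 2)) := by
    have e1 : (2 ^ z * (c₁ / 2 * x * Δ)) ^ 2 ≤
        2 ^ z * P z (H z lo lam ∩ S) * (60 * 2 ^ z * (x + x ^ 2)) :=
      h6.trans (mul_le_mul_of_nonneg_left (by gcongr) (by positivity))
    have e2 : (0 : ℝ) < (2 ^ z) ^ 2 := by positivity
    refine le_of_mul_le_mul_left ?_ e2
    calc ((2 : ℝ) ^ z) ^ 2 * (c₁ / 2 * x * Δ) ^ 2 = (2 ^ z * (c₁ / 2 * x * Δ)) ^ 2 := by ring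
      _ ≤ _ := e1
      _ = _ := by ring
  have h9 : min 1 x * (x + x ^ 2) ≤ 2 * x ^ 2 := by
    rcases le_total x 1 with h | h
    · rw [min_eq_right h]; nlinarith
    · rw [min_eq_left h]; nlinarith
  -- conclusion
  have h10 : 0 < x + x ^ 2 := by positivity
  have hm0 : 0 ≤ min 1 x := le_min zero_le_one hx0.le
  refine le_of_mul_le_mul_right ?_ h10
  calc c₁ ^ 2 / 480 * min 1 x * Δ ^ 2 * (x + x ^ 2)
      = c₁ ^ 2 / 480 * Δ ^ 2 * (min 1 x * (x + x ^ 2)) := by ring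
    _ ≤ c₁ ^ 2 / 480 * Δ ^ 2 * (2 * x ^ 2) := mul_le_mul_of_nonneg_left h9 (by positivity)
    _ = (c₁ / 2 * x * Δ) ^ 2 / 60 := by ring
    _ ≤ P z (H z lo lam ∩ S) * (60 * (x + x ^ 2)) / 60 := by gcongr
    _ = P z (H z lo lam ∩ S) * (x + x ^ 2) := by ring

end Pool.Agent.Lib.MP_0a5adf_nt.WT.Div
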