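import Pool.Agent.Lib.MP_0a5adf_nt.WT.DivDefs
import Pool.Agent.Lib.MP_0a5adf_nt.WT.Rise

/-!
# Row DIP (MP_0a5adf_nt, WT, divergent half)
-/

set_option autoImplicit false

namespace Pool.Agent.Lib.MP_0a5adf_nt.WT.Div

open Finset Pool.Agent.Lib.MP_0a5adf_nt.H89

/-- A last small term before a large one. -/
theorem exists_last {N h k i : ℕ} (hki : k ≤ i) (hk : T^[k] N < 2 ^ h) (hi : 2 ^ h ≤ T^[i] N) :
    ∃ i0, i0 + 1 ≤ i ∧ T^[i0] N < 2 ^ h ∧ ∀ j, i0 < j → j ≤ i → 2 ^ h ≤ T^[j] N := by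
  classical
  have hne : ((range (i + 1)).filter fun j => T^[j] N < 2 ^ h).Nonempty :=
    ⟨k, mem_filter.2 ⟨mem_range.2 (by omega), hk⟩⟩
  obtain ⟨i0, h1, h2⟩ := exists_max_image _ id hne
  obtain ⟨h3, h4⟩ := mem_filter.1 h1
  refine ⟨i0, ?_, h4, ?_⟩
  · have h5 := mem_range.1 h3
    rcases Nat.lt_or_ge i0 i with h6 | h6
    · exact h6
    · have h7 : i0 = i := by omega
      rw [h7] at h4
      omega
  · intro j hj hji
    by_contra hcon
    have h8 := h2 j (mem_filter.2 ⟨mem_range.2 (by omega), by omega⟩)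
    simp only [id] at h8
    omega

theorem T_le_of_lt {x h : ℕ} (hx : x < 2 ^ h) : T x ≤ 2 ^ (h + 1) := by
  unfold T
  rw [pow_succ]
  split_ifs <;> omega

/-- A trajectory that rises from `2 ^ (h + 1)` to `2 ^ b` without falling below `2 ^ h`. -/
theorem W_ge {x h b n : ℕ} (hx : x ≤ 2 ^ (h + 1)) (hall : ∀ j ≤ n, 2 ^ h ≤ T^[j] x)
    (hn : 2 * n ≤ 3 * 2 ^ h) (hb : 2 ^ b ≤ T^[n] x) : (2 : ℝ) ^ b ≤ 2 ^ (h + 2) * W n x := by
  have h1 := mul_one_sub_le n x
  have h2 : Sg n x ≤ 1 / 2 := by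
    have h3 : Sg n x ≤ ∑ _j ∈ range n, 1 / (3 * (2 : ℝ) ^ h) := by
      unfold Sg
      refine sum_le_sum fun j hj => ?_
      have h4 : ((2 : ℕ) ^ h : ℝ) ≤ (T^[j] x : ℝ) := by
        exact_mod_cast hall j (mem_range.1 hj).le
      have h5 : (0 : ℝ) < 2 ^ h := by positivity
      refine one_div_le_one_div_of_le (by positivity) ?_
      push_cast at h4
      linarith
    rw [sum_const, card_range, nsmul_eq_mul] at h3
    refine h3.trans ?_
    have h5 : (0 : ℝ) < 2 ^ h := by positivity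
    have h6 : (2 : ℝ) * n ≤ 3 * 2 ^ h := by exact_mod_cast hn
    rw [mul_one_div, div_le_div_iff₀ (by positivity) (by norm_num)]
    linarith
  have h3 : (2 : ℝ) ^ b ≤ (T^[n] x : ℝ) := by exact_mod_cast hb
  have h4 : (x : ℝ) ≤ 2 ^ (h + 1) := by exact_mod_cast hx
  have h5 := W_pos n x
  have h6 : (0 : ℝ) ≤ (T^[n] x : ℝ) := Nat.cast_nonneg _
  have h7 : (T^[n] x : ℝ) * (1 / 2) ≤ W n x * 2 ^ (h + 1) := by
    calc (T^[n] x : ℝ) * (1 / 2) ≤ (T^[n] x : ℝ) * (1 - Sg n x) :=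
          mul_le_mul_of_nonneg_left (by linarith) h6
      _ ≤ W n x * x := h1
      _ ≤ W n x * 2 ^ (h + 1) := mul_le_mul_of_nonneg_left h4 h5.le
  have h8 : (2 : ℝ) ^ (h + 2) = 2 * 2 ^ (h + 1) := by rw [pow_succ _ (h + 1)]; ring
  rw [h8]
  nlinarith

/-- ROW DIP. -/
theorem dip' (hR : RiseStatement) : DipStatement := by
  classical
  obtain ⟨m0, hm0⟩ : ∃ m0 : ℕ, ∀ m ≥ m0, (m : ℝ) ^ 5 ≤ 2 ^ m := by
    have h1 := tendsto_pow_const_div_const_pow_of_one_lt 5 (r := (2 : ℝ)) (by norm_num)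
    have h2 := (h1.eventually (gt_mem_nhds (show (0 : ℝ) < 1 by norm_num)))
    obtain ⟨m0, hm0⟩ := Filter.eventually_atTop.1 h2
    refine ⟨m0, fun m hm => ?_⟩
    have h3 := hm0 m hm
    rw [div_lt_one (by positivity)] at h3
    exact h3.le
  refine ⟨16807, 4 * m0 + 124, by norm_num, ?_⟩
  intro z lo hz hlo
  set m := z / 4 with hm
  set h := z / 2 with hh
  have hm1 : m0 ≤ m := by omega
  -- the small number of steps
  have hzh : 2 * z ≤ 3 * 2 ^ h := by
    have h1 : z ≤ 2 * h + 1 := by omega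
    have h2 : ∀ a : ℕ, 3 ≤ a → 2 * (2 * a + 1) ≤ 3 * 2 ^ a := by
      intro a ha
      induction a, ha using Nat.le_induction with
      | base => norm_num
      | succ a ha ih =>
        rw [pow_succ]
        have : 8 ≤ 2 ^ a := by
          calc 8 = 2 ^ 3 := by norm_num
            _ ≤ 2 ^ a := Nat.pow_le_pow_right (by norm_num) ha
        omega
    have h3 := h2 h (by omega)
    omega
  set F : ℕ → Set ℕ := fun i0 => {N : ℕ | 2 ^ z ≤ N ∧ N < 2 ^ (z + 1) ∧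
    ∃ k, i0 + k ≤ z ∧ (2 : ℝ) ^ m ≤ W k (T^[i0] N)} with hF
  have hsub : {N : ℕ | 2 ^ z ≤ N ∧ N < 2 ^ (z + 1) ∧ ∃ i < 95 * z / 100, T^[i] N ∈ Win z ∧
      ∃ k ≤ i, T^[k] N < 2 ^ lo} ⊆ ⋃ i0 ∈ range z, F i0 := by
    rintro N ⟨h1, h2, i, hi, ⟨b, hb, hb1, -⟩, k, hki, hk⟩
    obtain ⟨hb3, hb4, -⟩ := mem_filter.1 hb
    have hbh : h + 2 + m ≤ b := by omega
    have hloh : lo ≤ h := by omega
    have hk' : T^[k] N < 2 ^ h :=
      lt_of_lt_of_le hk (Nat.pow_le_pow_right (by norm_num) hloh)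
    have hi' : 2 ^ h ≤ T^[i] N :=
      le_trans (Nat.pow_le_pow_right (by norm_num) (by omega)) hb1
    obtain ⟨i0, h3, h4, h5⟩ := exists_last hki hk' hi'
    have e1 : ∀ j, T^[j] (T^[i0 + 1] N) = T^[j + (i0 + 1)] N := fun j =>
      (Function.iterate_add_apply T j (i0 + 1) N).symm
    refine Set.mem_biUnion (show i0 + 1 ∈ (range z : Set ℕ) from ?_) ?_
    · rw [coe_range]
      exact Set.mem_Iio.2 (by omega)
    · refine ⟨h1, h2, i - (i0 + 1), by omega, ?_⟩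
      have h6 := W_ge (x := T^[i0 + 1] N) (h := h) (b := b) (n := i - (i0 + 1)) ?_ ?_ ?_ ?_
      · have h7 : (2 : ℝ) ^ (h + 2) * 2 ^ m ≤ 2 ^ b := by
          rw [← pow_add]
          exact pow_le_pow_right₀ (by norm_num) hbh
        have h8 : (0 : ℝ) < 2 ^ (h + 2) := by positivity
        exact le_of_mul_le_mul_left (h7.trans h6) h8
      · rw [Function.iterate_succ_apply']
        exact T_le_of_lt h4
      · intro j hj
        rw [e1]
        exact h5 _ (by omega) (by omega)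
      · have : i < z := by omega
        omega
      · rw [e1]
        have : i - (i0 + 1) + (i0 + 1) = i := by omega
        rw [this]
        exact hb1
  have hfin : ∀ i0, (F i0).Finite := fun i0 =>
    (Set.finite_Iio (2 ^ (z + 1))).subset fun N hN => hN.2.1
  have h2m : (0 : ℝ) < 2 ^ m := by positivity
  have hcard : (((⋃ i0 ∈ range z, F i0).ncard : ℕ) : ℝ) ≤ z * (2 ^ z / 2 ^ m) := by
    have h1 : (⋃ i0 ∈ range z, F i0).ncard ≤ ∑ i0 ∈ range z, (F i0).ncard := by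
      have h2 : ∀ s : Finset ℕ, (⋃ i0 ∈ s, F i0).ncard ≤ ∑ i0 ∈ s, (F i0).ncard := by
        intro s
        induction s using Finset.induction_on with
        | empty => simp
        | insert a s ha ih =>
          rw [Finset.set_biUnion_insert, sum_insert ha]
          exact (Set.ncard_union_le _ _).trans (Nat.add_le_add_left ih _)
      exact h2 _
    calc (((⋃ i0 ∈ range z, F i0).ncard : ℕ) : ℝ) ≤ ((∑ i0 ∈ range z, (F i0).ncard : ℕ) : ℝ) := by
          exact_mod_cast h1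
      _ = ∑ i0 ∈ range z, ((F i0).ncard : ℝ) := by push_cast; rfl
      _ ≤ ∑ _i0 ∈ range z, ((2 : ℝ) ^ z / 2 ^ m) := by
          refine sum_le_sum fun i0 hi0 => ?_
          exact hR.1 z i0 (2 ^ m) (mem_range.1 hi0).le h2m
      _ = z * (2 ^ z / 2 ^ m) := by rw [sum_const, card_range, nsmul_eq_mul]
  have hfinU : (⋃ i0 ∈ range z, F i0).Finite :=
    (range z).finite_toSet.biUnion fun i0 _ => hfin i0
  refine le_trans (by exact_mod_cast Set.ncard_le_ncard hsub hfinU) (hcard.trans ?_)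
  have hz0 : (0 : ℝ) < z := by
    have : 0 < z := by omega
    exact_mod_cast this
  have h7 : (z : ℝ) ≤ 7 * m := by
    have : z ≤ 7 * m := by omega
    exact_mod_cast this
  have h8 : (z : ℝ) ^ 5 ≤ 16807 * 2 ^ m := by
    calc (z : ℝ) ^ 5 ≤ (7 * m) ^ 5 := pow_le_pow_left₀ hz0.le h7 5
      _ = 16807 * (m : ℝ) ^ 5 := by ring
      _ ≤ 16807 * 2 ^ m := by
          have := hm0 m hm1
          linarith
  rw [mul_div_assoc', div_le_div_iff₀ h2m (by positivity)]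
  have h9 : (0 : ℝ) < 2 ^ z := by positivity
  calc (z : ℝ) * 2 ^ z * (z : ℝ) ^ 4 = 2 ^ z * (z : ℝ) ^ 5 := by ring
    _ ≤ 2 ^ z * (16807 * 2 ^ m) := mul_le_mul_of_nonneg_left h8 h9.le
    _ = 16807 * 2 ^ z * 2 ^ m := by ring

/-- ROW DIP. -/
theorem dip : DipStatement := dip' rise

end Pool.Agent.Lib.MP_0a5adf_nt.WT.Div
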