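import Pool.Agent.Lib.MP_0a5adf_nt.WT.DivDefs
import Pool.Agent.Lib.MP_0a5adf_nt.WT.Blk

/-!
Row STP: one window (from CSZ, HNV and `ND.ConvStatement`).
-/

set_option autoImplicit false

namespace Pool.Agent.Lib.MP_0a5adf_nt.WT.Div

open Finset Pool.Agent.Lib.MP_0a5adf_nt.H89 Pool.Agent.Lib.MP_edb5be_nt.ND

theorem inv_mono {S : Set ℕ} {lo lo' : ℕ} (h : Inv S lo) (hl : lo ≤ lo') : Inv S lo' := fun n hn =>
  h n (le_trans (Nat.pow_le_pow_right (by norm_num) hl) hn)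

theorem inv_sdiff {S B : Set ℕ} {lo : ℕ} (h : Inv S lo) (h' : Inv B lo) : Inv (S \ B) lo := by
  intro n hn
  rw [Set.mem_sdiff, Set.mem_sdiff, h n hn, h' n hn]

theorem inv_inter {S B : Set ℕ} {lo : ℕ} (h : Inv S lo) (h' : Inv B lo) : Inv (S ∩ B) lo := by
  intro n hn
  rw [Set.mem_inter_iff, Set.mem_inter_iff, h n hn, h' n hn]

theorem P_split (S B : Set ℕ) (L : ℕ) : P L S = P L (S \ B) + P L (S ∩ B) := by
  unfold P
  rw [← add_div]
  congr 1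
  have hfin : ∀ B' : Set ℕ, ({n : ℕ | 2 ^ L ≤ n ∧ n < 2 ^ (L + 1) ∧ n ∈ B'}).Finite := fun B' =>
    (Set.finite_lt_nat (2 ^ (L + 1))).subset fun n hn => hn.2.1
  have h1 : {n : ℕ | 2 ^ L ≤ n ∧ n < 2 ^ (L + 1) ∧ n ∈ S} =
      {n : ℕ | 2 ^ L ≤ n ∧ n < 2 ^ (L + 1) ∧ n ∈ S \ B} ∪
        {n : ℕ | 2 ^ L ≤ n ∧ n < 2 ^ (L + 1) ∧ n ∈ S ∩ B} := by
    ext n
    simp only [Set.mem_setOf_eq, Set.mem_union, Set.mem_sdiff, Set.mem_inter_iff]
    tauto
  rw [h1, Set.ncard_union_eq _ (hfin _) (hfin _)]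
  · push_cast; ring
  · rw [Set.disjoint_left]
    rintro n ⟨-, -, h2⟩ ⟨-, -, h3⟩
    exact h2.2 h3.2

theorem P_nonneg' (L : ℕ) (B : Set ℕ) : 0 ≤ P L B := by
  unfold P; positivity

/-- The limit of the proportions in the blocks, with a rate. -/
theorem lim_rate (h : ConvStatement) :
    ∃ (C : ℝ) (z₀ : ℕ), 0 < C ∧ ∀ (B : Set ℕ) (lo : ℕ), Inv B lo → ∃ D : ℝ, 0 ≤ D ∧ D ≤ 1 ∧
      Lim B D ∧ ∀ L : ℕ, z₀ ≤ L → 100 * lo ≤ 83 * L → |P L B - D| ≤ C * (L : ℝ) ^ (-(1 / 38) : ℝ) := by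
  obtain ⟨C, u₀, hC, h⟩ := h
  refine ⟨C, ⌈u₀⌉₊, hC, ?_⟩
  intro B lo hB
  have hInv : InvA true B lo := by
    intro n hn
    rw [T_true']
    exact hB n hn
  obtain ⟨D, h0, h1, hD⟩ := h true B lo hInv
  have key : ∀ L : ℕ, ⌈u₀⌉₊ ≤ L → 100 * lo ≤ 83 * L →
      |P L B - D| ≤ C * (L : ℝ) ^ (-(1 / 38) : ℝ) := by
    intro L hL hlo
    have hL2 : u₀ ≤ (L : ℝ) := le_trans (Nat.le_ceil u₀) (by exact_mod_cast hL)
    have hloR : (lo : ℝ) ≤ 83 / 100 * L := by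
      have : (100 : ℝ) * lo ≤ 83 * L := by exact_mod_cast hlo
      linarith
    have h3 := hD L hL2 hloR
    rwa [Gd_eq_P] at h3
  refine ⟨D, h0, h1, ?_, key⟩
  unfold Lim
  rw [tendsto_iff_dist_tendsto_zero]
  have h4 : Filter.Tendsto (fun L : ℕ => C * (L : ℝ) ^ (-(1 / 38) : ℝ)) Filter.atTop (nhds 0) := by
    have h5 : Filter.Tendsto (fun L : ℕ => (L : ℝ) ^ (-(1 / 38) : ℝ)) Filter.atTop (nhds 0) :=
      (tendsto_rpow_neg_atTop (by norm_num : (0 : ℝ) < 1 / 38)).comp tendsto_natCast_atTop_atTop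
    simpa using h5.const_mul C
  refine squeeze_zero' (Filter.Eventually.of_forall fun L => dist_nonneg) ?_ h4
  filter_upwards [Filter.eventually_ge_atTop (max ⌈u₀⌉₊ (2 * lo))] with L hL
  rw [Real.dist_eq]
  have h6 : 2 * lo ≤ L := le_trans (le_max_right _ _) hL
  exact key L (le_trans (le_max_left _ _) hL) (by omega)

theorem stp (hcsz : CszStatement) (hhnv : HnvStatement) (hcv : ConvStatement) : StpStatement := by
  obtain ⟨c, C, z₀, hc, hC, hcsz⟩ := hcsz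
  obtain ⟨C₁, z₁, hC₁, hrate⟩ := lim_rate hcv
  refine ⟨c, 2 * c * C + C₁, max (max z₀ z₁) 200, hc, by positivity, ?_⟩
  intro S D lam lo z hz hS hD hlo hlam hlam2
  have hz0 : z₀ ≤ z := le_trans (le_trans (le_max_left _ _) (le_max_left _ _)) hz
  have hz1 : z₁ ≤ z := le_trans (le_trans (le_max_right _ _) (le_max_left _ _)) hz
  have hz2 : 200 ≤ z := le_trans (le_max_right _ _) hz
  have hlo' : lo ≤ 825 * z / 1000 + 1 := by omega
  have hH := hhnv z lo lam (by omega)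
  have hS' := inv_mono hS hlo'
  have hI1 : Inv (S \ H z lo lam) (825 * z / 1000 + 1) := inv_sdiff hS' hH
  have hI2 : Inv (S ∩ H z lo lam) (825 * z / 1000 + 1) := inv_inter hS' hH
  obtain ⟨D₁, hD₁0, -, hL₁, -⟩ := hrate _ _ hI1
  obtain ⟨D₂, hD₂0, -, hL₂, hR₂⟩ := hrate _ _ hI2
  obtain ⟨D₃, hD₃0, hD₃1, hL₃, -⟩ := hrate _ _ hS
  have hDD : D = D₃ := tendsto_nhds_unique hD hL₃
  have hsum : D = D₁ + D₂ := by
    refine tendsto_nhds_unique hD ?_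
    have h1 : (fun L : ℕ => P L S) =
        fun L : ℕ => P L (S \ H z lo lam) + P L (S ∩ H z lo lam) := by
      funext L; exact P_split _ _ _
    unfold Lim at hL₁ hL₂
    rw [h1]
    exact hL₁.add hL₂
  have hz3 : 100 * (825 * z / 1000 + 1) ≤ 83 * z := by omega
  have hr := hR₂ z hz1 hz3
  have hcs := hcsz S D lam lo z hz0 hS hD hlo hlam hlam2
  rw [Set.inter_comm] at hcs
  set δ : ℝ := (z : ℝ) ^ (-(1 / 38) : ℝ) with hδ
  set m : ℝ := min 1 ((z : ℝ) / lam) with hm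
  have hδ0 : 0 ≤ δ := by rw [hδ]; positivity
  have hm1 : m ≤ 1 := min_le_left _ _
  have hm0 : 0 ≤ m := le_min (by norm_num) (by positivity)
  have hD0 : 0 ≤ D := by rw [hDD]; exact hD₃0
  have hD1 : D ≤ 1 := by rw [hDD]; exact hD₃1
  have hsq : D ^ 2 - 2 * (C * δ) * D ≤ max 0 (D - C * δ) ^ 2 := by
    have hCδ : 0 ≤ C * δ := by positivity
    rcases le_total (D - C * δ) 0 with h | h
    · rw [max_eq_left h]
      nlinarith
    · rw [max_eq_right h]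
      nlinarith [sq_nonneg (C * δ)]
  have h7 : C * δ * D ≤ C * δ := by
    have hCδ : 0 ≤ C * δ := by positivity
    nlinarith
  have h8 : c * m * (D ^ 2 - 2 * (C * δ) * D) ≤ P z (S ∩ H z lo lam) :=
    le_trans (mul_le_mul_of_nonneg_left hsq (by positivity)) hcs
  have h9 : P z (S ∩ H z lo lam) ≤ D₂ + C₁ * δ := by
    have := (abs_le.mp hr).2
    linarith
  have h10 : c * m * (2 * (C * δ) * D) ≤ c * (2 * (C * δ)) := by
    have h11 : m * (2 * (C * δ) * D) ≤ 1 * (2 * (C * δ)) := by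
      have hCδ : 0 ≤ C * δ := by positivity
      have h12 : 2 * (C * δ) * D ≤ 2 * (C * δ) := by nlinarith
      have h13 : 0 ≤ 2 * (C * δ) * D := by positivity
      calc m * (2 * (C * δ) * D) ≤ 1 * (2 * (C * δ) * D) := mul_le_mul_of_nonneg_right hm1 h13
        _ ≤ 1 * (2 * (C * δ)) := by linarith
    calc c * m * (2 * (C * δ) * D) = c * (m * (2 * (C * δ) * D)) := by ring
      _ ≤ c * (1 * (2 * (C * δ))) := mul_le_mul_of_nonneg_left h11 hc.le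
      _ = c * (2 * (C * δ)) := by ring
  refine ⟨D₁, hL₁, hD₁0, by linarith, ?_, hI1⟩
  have h14 : c * m * D ^ 2 - c * m * (2 * (C * δ) * D) ≤ D₂ + C₁ * δ := by
    have : c * m * (D ^ 2 - 2 * (C * δ) * D) =
      c * m * D ^ 2 - c * m * (2 * (C * δ) * D) := by ring
    linarith
  have h15 : (2 * c * C + C₁) * δ = c * (2 * (C * δ)) + C₁ * δ := by ring
  rw [h15]
  linarith

end Pool.Agent.Lib.MP_0a5adf_nt.WT.Div
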