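import Pool.Agent.Lib.MP_0a5adf_nt.WT.DivDefs
import Pool.Agent.Lib.MP_0a5adf_nt.WT.Cts
import Pool.Agent.Lib.MP_0a5adf_nt.WT.Div.Stp

/-!
# Row END: the divergent half from STP, REC, CND, VIO (and `ND.ConvStatement`) (helper31)
-/

set_option autoImplicit false

namespace Pool.Agent.Lib.MP_0a5adf_nt.WT.Div

open Finset Pool.Agent.Lib.MP_0a5adf_nt.H89 Pool.Agent.Lib.MP_edb5be_nt.ND

namespace EndH

/-- The scales of invariance. -/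
def lo (z₀ : ℕ) : ℕ → ℕ
  | 0 => 0
  | k + 1 => 825 * (4 ^ k * z₀) / 1000 + 1

/-- The thresholds. -/
noncomputable def lam (ψ : ℝ → ℝ) (z₀ k : ℕ) : ℝ := max 1 (ψ (2 ^ (4 ^ k * z₀)))

open Classical in
/-- The sets `S_k`. -/
noncomputable def S (ψ : ℝ → ℝ) (z₀ : ℕ) : ℕ → Set ℕ
  | 0 => Set.univ
  | k + 1 => if lam ψ z₀ k ≤ ((4 ^ k * z₀ : ℕ) : ℝ) ^ 2 then
      S ψ z₀ k \ H (4 ^ k * z₀) (lo z₀ k) (lam ψ z₀ k) else S ψ z₀ k

theorem lo_le (z₀ k : ℕ) : lo z₀ k ≤ lo z₀ (k + 1) := by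
  cases k with
  | zero => exact Nat.zero_le _
  | succ k =>
    simp only [lo]
    have h : 4 ^ k * z₀ ≤ 4 ^ (k + 1) * z₀ :=
      Nat.mul_le_mul_right _ (Nat.pow_le_pow_right (by norm_num) (by omega))
    have : 825 * (4 ^ k * z₀) / 1000 ≤ 825 * (4 ^ (k + 1) * z₀) / 1000 :=
      Nat.div_le_div_right (Nat.mul_le_mul_left _ h)
    omega

theorem lo_small (z₀ k : ℕ) (hz : 3 ≤ z₀) : 10 * lo z₀ k ≤ 3 * (4 ^ k * z₀) := by
  cases k with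
  | zero => simp [lo]
  | succ k =>
    simp only [lo]
    have h1 : 1 ≤ 4 ^ k := Nat.one_le_pow _ _ (by norm_num)
    have h2 : 3 ≤ 4 ^ k * z₀ := by nlinarith
    have h3 : 4 ^ (k + 1) * z₀ = 4 * (4 ^ k * z₀) := by rw [pow_succ]; ring
    omega

theorem tame_sub (hvio : VioStatement) (ψ : ℝ → ℝ) (hψ : Gauge ψ) (z₀ k n : ℕ) (hn : 1 ≤ n)
    (hT : n ∈ Tame ψ) : n ∈ S ψ z₀ k := by
  induction k with
  | zero => exact Set.mem_univ n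
  | succ k ih =>
    simp only [S]
    split_ifs with h
    · refine ⟨ih, fun hH => ?_⟩
      exact hvio ψ _ _ n _ hψ (le_max_right _ _) (le_max_left _ _) hn hH hT
    · exact ih

/-- Sets with small proportions in all large blocks have density zero. -/
theorem hasD_zero (B : Set ℕ)
    (h : ∀ ε : ℝ, 0 < ε → ∃ L₁ : ℕ, ∀ L : ℕ, L₁ ≤ L → P L B ≤ ε) : HasD B 0 := by
  unfold HasD
  rw [Metric.tendsto_atTop]
  intro ε hε
  obtain ⟨L₁, hL₁⟩ := h (ε / 4) (by linarith)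
  refine ⟨max 1 (4 * 2 ^ L₁ / ε), fun X hX => ?_⟩
  have hX1 : 1 ≤ X := le_trans (le_max_left _ _) hX
  have hX2 : 4 * 2 ^ L₁ / ε ≤ X := le_trans (le_max_right _ _) hX
  have hX0 : 0 < X := by linarith
  have hfin : ∀ B' : Set ℕ, ({n : ℕ | n ∈ B' ∧ 1 ≤ n ∧ (n : ℝ) ≤ X}).Finite := fun B' =>
    (Set.finite_le_nat ⌊X⌋₊).subset fun n hn => Nat.le_floor hn.2.2
  set B' : Set ℕ := {n : ℕ | n ∈ B ∧ 2 ^ L₁ ≤ n} with hB'
  have hfinP : ∀ (L : ℕ) (B'' : Set ℕ),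
      ({n : ℕ | 2 ^ L ≤ n ∧ n < 2 ^ (L + 1) ∧ n ∈ B''}).Finite := fun L B'' =>
    (Set.finite_lt_nat (2 ^ (L + 1))).subset fun n hn => hn.2.1
  have hP : ∀ L : ℕ, P L B' ≤ ε / 4 := by
    intro L
    rcases lt_or_ge L L₁ with hL | hL
    · have h0 : {n : ℕ | 2 ^ L ≤ n ∧ n < 2 ^ (L + 1) ∧ n ∈ B'} = ∅ := by
        apply Set.eq_empty_of_forall_notMem
        rintro n ⟨-, hn, -, hn2⟩
        have : (2 : ℕ) ^ (L + 1) ≤ 2 ^ L₁ := Nat.pow_le_pow_right (by norm_num) hL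
        omega
      unfold P
      rw [h0]
      simp only [Set.ncard_empty, Nat.cast_zero, zero_div]
      linarith
    · refine le_trans ?_ (hL₁ L hL)
      unfold P
      refine div_le_div_of_nonneg_right ?_ (by positivity)
      have : {n : ℕ | 2 ^ L ≤ n ∧ n < 2 ^ (L + 1) ∧ n ∈ B'}.ncard ≤
          {n : ℕ | 2 ^ L ≤ n ∧ n < 2 ^ (L + 1) ∧ n ∈ B}.ncard :=
        Set.ncard_le_ncard (fun n hn => ⟨hn.1, hn.2.1, hn.2.2.1⟩) (hfinP L B)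
      exact_mod_cast this
  have h1 : ct B' X ≤ 2 * (ε / 4) * X := cts1 B' (ε / 4) X hX1 (by linarith) fun L _ => hP L
  have h2 : ct B X ≤ ct B' X + 2 ^ L₁ := by
    unfold ct
    have hsub : {n : ℕ | n ∈ B ∧ 1 ≤ n ∧ (n : ℝ) ≤ X} ⊆
        {n : ℕ | n ∈ B' ∧ 1 ≤ n ∧ (n : ℝ) ≤ X} ∪ {n : ℕ | n < 2 ^ L₁} := by
      rintro n ⟨hn, hn1, hnX⟩
      rcases lt_or_ge n (2 ^ L₁) with hlt | hge
      · exact Or.inr hlt
      · exact Or.inl ⟨⟨hn, hge⟩, hn1, hnX⟩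
    have h3 : {n : ℕ | n ∈ B ∧ 1 ≤ n ∧ (n : ℝ) ≤ X}.ncard ≤
        {n : ℕ | n ∈ B' ∧ 1 ≤ n ∧ (n : ℝ) ≤ X}.ncard + {n : ℕ | n < 2 ^ L₁}.ncard :=
      (Set.ncard_le_ncard hsub ((hfin B').union (Set.finite_lt_nat _))).trans
        (Set.ncard_union_le _ _)
    have h4 : {n : ℕ | n < 2 ^ L₁}.ncard = 2 ^ L₁ := by
      have : {n : ℕ | n < 2 ^ L₁} = ((range (2 ^ L₁) : Finset ℕ) : Set ℕ) := by
        ext n; simp
      rw [this, Set.ncard_coe_finset, card_range]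
    rw [h4] at h3
    exact_mod_cast h3
  have h5 : 0 ≤ ct B X := by unfold ct; positivity
  rw [Real.dist_eq, sub_zero, abs_of_nonneg (div_nonneg h5 hX0.le), div_lt_iff₀ hX0]
  have h6 : 4 * 2 ^ L₁ ≤ X * ε := by rwa [div_le_iff₀ hε] at hX2
  have h7 : 0 < X * ε := mul_pos hX0 hε
  nlinarith

end EndH

open EndH

/-- Row END. -/
theorem div_end (hstp : StpStatement) (hrec : RecStatement) (hcnd : CndStatement)
    (hvio : VioStatement) (hcv : ConvStatement) : DivStatement := by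
  intro ψ hψ hns
  obtain ⟨c, C, z₁, hc, hC, hstp⟩ := hstp
  obtain ⟨_, _, _, hrate⟩ := lim_rate hcv
  set z₀ : ℕ := max z₁ 3 with hz₀
  have hz3 : 3 ≤ z₀ := le_max_right _ _
  have hz1 : ∀ k : ℕ, z₁ ≤ 4 ^ k * z₀ := fun k =>
    le_trans (le_max_left z₁ 3) (Nat.le_mul_of_pos_left _ (by positivity))
  have hlam1 : ∀ k, 1 ≤ lam ψ z₀ k := fun k => le_max_left _ _
  have hInv : ∀ k, Inv (S ψ z₀ k) (lo z₀ k) := by
    intro k
    induction k with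
    | zero => intro n _; simp [S]
    | succ k ih =>
      obtain ⟨D, -, -, hD, -⟩ := hrate _ _ ih
      simp only [S]
      split_ifs with h
      · obtain ⟨D', -, -, -, -, h5⟩ := hstp (S ψ z₀ k) D (lam ψ z₀ k) (lo z₀ k) (4 ^ k * z₀)
          (hz1 k) ih hD (lo_small z₀ k hz3) (hlam1 k) h
        exact h5
      · exact inv_mono ih (lo_le z₀ k)
  choose p hp0 hp1 hpL _ using fun k => hrate (S ψ z₀ k) (lo z₀ k) (hInv k)
  have hstep : ∀ k, lam ψ z₀ k ≤ ((4 ^ k * z₀ : ℕ) : ℝ) ^ 2 → p (k + 1) ≤ p k ∧ p (k + 1) ≤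
      p k - c * min 1 (((4 ^ k * z₀ : ℕ) : ℝ) / lam ψ z₀ k) * p k ^ 2 +
        C * (((4 ^ k * z₀ : ℕ) : ℝ)) ^ (-(1 / 38) : ℝ) := by
    intro k hk
    obtain ⟨D', hL', -, h3, h4, -⟩ := hstp (S ψ z₀ k) (p k) (lam ψ z₀ k) (lo z₀ k) (4 ^ k * z₀)
      (hz1 k) (hInv k) (hpL k) (lo_small z₀ k hz3) (hlam1 k) hk
    have hS : S ψ z₀ (k + 1) = S ψ z₀ k \ H (4 ^ k * z₀) (lo z₀ k) (lam ψ z₀ k) := by
      simp only [S]
      rw [if_pos hk]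
    have hL2 := hpL (k + 1)
    rw [hS] at hL2
    have hD : p (k + 1) = D' := tendsto_nhds_unique hL2 hL'
    rw [hD]
    exact ⟨h3, h4⟩
  have hle : ∀ k, p (k + 1) ≤ p k := by
    intro k
    by_cases hk : lam ψ z₀ k ≤ ((4 ^ k * z₀ : ℕ) : ℝ) ^ 2
    · exact (hstep k hk).1
    · have hS : S ψ z₀ (k + 1) = S ψ z₀ k := by
        simp only [S]
        rw [if_neg hk]
      have hL2 := hpL (k + 1)
      rw [hS] at hL2
      exact (tendsto_nhds_unique hL2 (hpL k)).le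
  have hlam : ∀ k, 1 ≤ lam ψ z₀ k ∧ lam ψ z₀ k ≤ lam ψ z₀ (k + 1) := by
    intro k
    refine ⟨hlam1 k, max_le_max le_rfl (hψ.mono _ _ ?_ ?_)⟩
    · exact one_le_pow₀ (by norm_num)
    · exact pow_le_pow_right₀ (by norm_num)
        (Nat.mul_le_mul_right _ (Nat.pow_le_pow_right (by norm_num) (by omega)))
  have hlim := hrec c C z₀ p (lam ψ z₀) hc hC (by omega) (fun k => ⟨hp0 k, hp1 k, hle k⟩) hlam
    (fun k hk => (hstep k hk).2) (hcnd ψ z₀ hψ (by omega) hns)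
  apply hasD_zero
  intro ε hε
  obtain ⟨k, hk⟩ := (hlim.eventually (gt_mem_nhds (half_pos hε))).exists
  have h1 := (hpL k).eventually (gt_mem_nhds (lt_trans hk (half_lt_self hε)))
  obtain ⟨L₁, hL₁⟩ := Filter.eventually_atTop.1 h1
  refine ⟨L₁, fun L hL => le_trans ?_ (hL₁ L hL).le⟩
  unfold P
  refine div_le_div_of_nonneg_right ?_ (by positivity)
  have : {n : ℕ | 2 ^ L ≤ n ∧ n < 2 ^ (L + 1) ∧ n ∈ Tame ψ}.ncard ≤
      {n : ℕ | 2 ^ L ≤ n ∧ n < 2 ^ (L + 1) ∧ n ∈ S ψ z₀ k}.ncard := by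
    refine Set.ncard_le_ncard (fun n hn => ⟨hn.1, hn.2.1, ?_⟩)
      ((Set.finite_lt_nat (2 ^ (L + 1))).subset fun n hn => hn.2.1)
    exact tame_sub hvio ψ hψ z₀ k n (le_trans Nat.one_le_two_pow hn.1) hn.2.2
  exact_mod_cast this

end Pool.Agent.Lib.MP_0a5adf_nt.WT.Div
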