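import Pool.Agent.Lib.MP_0a5adf_nt.WT.DivDefs

/-!
# Row FST: first moment of the visits to `Vr ∩ S` in the window
-/

set_option autoImplicit false

namespace Pool.Agent.Lib.MP_0a5adf_nt.WT.Div

open Finset Pool.Agent.Lib.MP_0a5adf_nt.H89

namespace FST

lemma W_add (t n c : ℕ) : W t (n + 2 ^ t * c) = W t n := by
  induction c with
  | zero => rw [mul_zero, add_zero]
  | succ c ih =>
    have : n + 2 ^ t * (c + 1) = 2 ^ t + (n + 2 ^ t * c) := by ring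
    rw [this, W_shift, ih]

lemma W_mod {t j : ℕ} (h : t ≤ j) (M : ℕ) : W t (M % 2 ^ j) = W t M := by
  have h1 : M = M % 2 ^ j + 2 ^ t * (2 ^ (j - t) * (M / 2 ^ j)) := by
    rw [← mul_assoc, ← pow_add, Nat.add_sub_cancel' h]
    exact (Nat.mod_add_div M (2 ^ j)).symm
  conv_rhs => rw [h1]
  rw [W_add]

lemma Vr_mod (lam : ℝ) (j M : ℕ) : M % 2 ^ j ∈ Vr lam j ↔ M ∈ Vr lam j := by
  constructor
  · rintro ⟨t, ht, h⟩
    exact ⟨t, ht, by rwa [W_mod ht] at h⟩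
  · rintro ⟨t, ht, h⟩
    exact ⟨t, ht, by rwa [W_mod ht]⟩

lemma Vr_mod_mul (lam : ℝ) (j m M : ℕ) : M % (2 ^ j * 3 ^ m) ∈ Vr lam j ↔ M ∈ Vr lam j := by
  rw [← Vr_mod, Nat.mod_mul_right_mod, Vr_mod]

lemma Phi_nonneg (m : ℕ) (M : ℤ) : 0 ≤ TP.Phi m M := by
  unfold TP.Phi TP.f
  positivity

open Classical in
/-- the sum over the classes -/
lemma sum_classes (lam : ℝ) (j m : ℕ) (hΦ : ∀ x y : ℕ, x % 3 ^ m = y % 3 ^ m →
    TP.Phi m ((x : ℕ) : ℤ) = TP.Phi m ((y : ℕ) : ℤ)) :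
    ∑ a ∈ (range (2 ^ j * 3 ^ m)).filter (fun a => a ∈ Vr lam j), TP.Phi m ((a : ℕ) : ℤ)
      = (((range (2 ^ j)).filter fun r => r ∈ Vr lam j).card : ℝ)
        * ∑ x ∈ range (3 ^ m), TP.Phi m ((x : ℕ) : ℤ) := by
  have hco : Nat.Coprime (2 ^ j) (3 ^ m) := Nat.Coprime.pow _ _ (by norm_num)
  have h2 : 0 < 2 ^ j := by positivity
  have h3 : 0 < 3 ^ m := by positivity
  rw [← nsmul_eq_mul, ← Finset.sum_const, ← Finset.sum_product']
  refine Finset.sum_bij (fun a _ => (a % 2 ^ j, a % 3 ^ m)) ?_ ?_ ?_ ?_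
  · intro a ha
    rw [mem_filter] at ha
    rw [mem_product, mem_filter, mem_range, mem_range]
    exact ⟨⟨Nat.mod_lt _ h2, (Vr_mod lam j a).2 ha.2⟩, Nat.mod_lt _ h3⟩
  · intro a ha a' ha' h
    rw [mem_filter, mem_range] at ha ha'
    rw [Prod.mk.injEq] at h
    have h4 : a ≡ a' [MOD 2 ^ j * 3 ^ m] :=
      (Nat.modEq_and_modEq_iff_modEq_mul hco).1 ⟨h.1, h.2⟩
    exact Nat.ModEq.eq_of_lt_of_lt h4 ha.1 ha'.1
  · rintro ⟨r, x⟩ h
    rw [mem_product, mem_filter, mem_range, mem_range] at h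
    obtain ⟨⟨hr, hV⟩, hx⟩ := h
    let c := Nat.chineseRemainder hco r x
    have hc1 : (c : ℕ) % 2 ^ j = r := by
      have : (c : ℕ) % 2 ^ j = r % 2 ^ j := c.2.1
      rwa [Nat.mod_eq_of_lt hr] at this
    have hc2 : (c : ℕ) % 3 ^ m = x := by
      have : (c : ℕ) % 3 ^ m = x % 3 ^ m := c.2.2
      rwa [Nat.mod_eq_of_lt hx] at this
    refine ⟨c, ?_, by rw [hc1, hc2]⟩
    rw [mem_filter, mem_range]
    refine ⟨Nat.chineseRemainder_lt_mul hco r x h2.ne' h3.ne', ?_⟩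
    rw [← Vr_mod, hc1]
    exact hV
  · intro a _
    exact hΦ _ _ (Nat.mod_mod _ _).symm

open Classical in
/-- the points of the block in `Vr ∩ S` -/
noncomputable def Eb (lam : ℝ) (j : ℕ) (S : Set ℕ) (b : ℕ) : Finset ℕ :=
  (Ico (2 ^ b) (2 ^ (b + 1))).filter fun M => M ∈ Vr lam j ∧ M ∈ S

open Classical in
/-- lower bound on one level -/
lemma level (S : Set ℕ) (lam δ : ℝ) (j m b : ℕ)
    (hΦ : ∀ x y : ℕ, x % 3 ^ m = y % 3 ^ m → TP.Phi m ((x : ℕ) : ℤ) = TP.Phi m ((y : ℕ) : ℤ))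
    (hcls : ∀ a < 2 ^ j * 3 ^ m, 2 ^ b / (2 ^ j * 3 ^ m) * δ ≤
      ({M : ℕ | 2 ^ b ≤ M ∧ M < 2 ^ (b + 1) ∧ M ∈ S ∧ M % (2 ^ j * 3 ^ m) = a}.ncard : ℝ)) :
    2 ^ b / (2 ^ j * 3 ^ m) * δ * ((((range (2 ^ j)).filter fun r => r ∈ Vr lam j).card : ℝ)
        * ∑ x ∈ range (3 ^ m), TP.Phi m ((x : ℕ) : ℤ)) ≤
      ∑ M ∈ Eb lam j S b, TP.Phi m ((M : ℕ) : ℤ) := by
  rw [← sum_classes lam j m hΦ, mul_sum]
  have hK : 0 < 2 ^ j * 3 ^ m := by positivity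
  rw [← Finset.sum_fiberwise_of_maps_to (s := Eb lam j S b) (t := range (2 ^ j * 3 ^ m))
    (g := fun M => M % (2 ^ j * 3 ^ m)) (fun M _ => mem_range.2 (Nat.mod_lt _ hK))]
  refine le_trans (Finset.sum_le_sum fun a ha => ?_)
    (Finset.sum_le_sum_of_subset_of_nonneg (filter_subset _ _) fun a _ _ =>
      Finset.sum_nonneg fun M _ => Phi_nonneg m _)
  rw [mem_filter, mem_range] at ha
  have h1 : ∑ M ∈ (Eb lam j S b).filter (fun M => M % (2 ^ j * 3 ^ m) = a),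
      TP.Phi m ((M : ℕ) : ℤ)
      = (((Eb lam j S b).filter (fun M => M % (2 ^ j * 3 ^ m) = a)).card : ℝ)
        * TP.Phi m ((a : ℕ) : ℤ) := by
    rw [← nsmul_eq_mul, ← Finset.sum_const]
    refine Finset.sum_congr rfl fun M hM => ?_
    rw [mem_filter] at hM
    refine hΦ _ _ ?_
    rw [← hM.2, Nat.mod_mul_left_mod]
  rw [h1]
  refine mul_le_mul_of_nonneg_right ?_ (Phi_nonneg m _)
  refine (hcls a ha.1).trans (le_of_eq ?_)
  rw [← Set.ncard_coe_finset]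
  congr 2
  ext M
  simp only [Set.mem_ofPred_eq, coe_filter, Eb, mem_filter, mem_Ico]
  constructor
  · rintro ⟨h2, h3, h4, h5⟩
    refine ⟨⟨⟨h2, h3⟩, ?_, h4⟩, h5⟩
    rw [← Vr_mod_mul lam j m, h5]
    exact ha.2
  · rintro ⟨⟨⟨h2, h3⟩, _, h4⟩, h5⟩
    exact ⟨h2, h3, h4, h5⟩

/-- elementary estimates for the parameters -/
lemma params (K : ℝ) (hK : 0 < K) : ∃ z₀ : ℕ, 256 ≤ z₀ ∧ ∀ z : ℕ, z₀ ≤ z → 2 ≤ jz z ∧ 400 * jz z ≤ z ∧
    (z : ℝ) ^ (1 / 8 : ℝ) / 2 ≤ jz z ∧ (z : ℝ) ^ 8 ≤ 2 ^ 64 * (jz z : ℝ) ^ 64 ∧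
    (∀ b ∈ lv z, (jz z : ℝ) ≤ (b : ℝ) ^ (1 / 7 : ℝ)) ∧
    (∀ lam : ℝ, 1 ≤ lam → lam ≤ (z : ℝ) ^ 2 → K * (1 + Real.log lam) ≤ jz z) := by
  refine ⟨4 ^ 8 + ⌈((66 * K) ^ 2) ^ 8⌉₊, by omega, fun z hz => ?_⟩
  have hz1 : ((4 : ℝ) ^ 8) ≤ z := by
    have : 4 ^ 8 ≤ z := by omega
    exact_mod_cast this
  have hz2 : ((66 * K) ^ 2) ^ 8 ≤ (z : ℝ) := by
    have h1 : ⌈((66 * K) ^ 2) ^ 8⌉₊ ≤ z := by omega
    exact (Nat.le_ceil _).trans (by exact_mod_cast h1)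
  set y : ℝ := (z : ℝ) ^ (1 / 8 : ℝ) with hy
  have hz0 : (0 : ℝ) ≤ z := Nat.cast_nonneg z
  have hy0 : 0 ≤ y := Real.rpow_nonneg hz0 _
  have hy8 : y ^ 8 = z := by
    rw [hy, ← Real.rpow_natCast, ← Real.rpow_mul hz0]
    norm_num
  have hy4 : 4 ≤ y := by
    rw [← pow_le_pow_iff_left₀ (by norm_num) hy0 (n := 8) (by norm_num), hy8]
    exact hz1
  have hyK : (66 * K) ^ 2 ≤ y := by
    rw [← pow_le_pow_iff_left₀ (by positivity) hy0 (n := 8) (by norm_num), hy8]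
    exact hz2
  have hj1 : (jz z : ℝ) ≤ y := Nat.floor_le hy0
  have hj2 : y - 1 ≤ (jz z : ℝ) := by
    have := Nat.lt_floor_add_one y
    have h2 : ((⌊y⌋₊ : ℕ) : ℝ) = jz z := rfl
    linarith
  have hj3 : y / 2 ≤ (jz z : ℝ) := by linarith
  refine ⟨?_, ?_, hj3, ?_, ?_, ?_⟩
  · have : (2 : ℝ) ≤ jz z := by linarith
    exact_mod_cast this
  · have h1 : (400 : ℝ) * jz z ≤ z := by
      rw [← hy8]
      calc (400 : ℝ) * jz z ≤ 400 * y := by linarith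
        _ ≤ 4 ^ 7 * y := by nlinarith
        _ ≤ y ^ 7 * y := by
          refine mul_le_mul_of_nonneg_right ?_ hy0
          exact pow_le_pow_left₀ (by norm_num) hy4 7
        _ = y ^ 8 := by ring
    exact_mod_cast h1
  · calc (z : ℝ) ^ 8 = y ^ 64 := by rw [← hy8]; ring
      _ = 2 ^ 64 * (y / 2) ^ 64 := by rw [div_pow]; ring
      _ ≤ 2 ^ 64 * (jz z : ℝ) ^ 64 := by
        refine mul_le_mul_of_nonneg_left ?_ (by positivity)
        exact pow_le_pow_left₀ (by positivity) hj3 64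
  · intro b hb
    have hb' : 815 * z ≤ 1000 * b := (mem_filter.1 hb).2.1
    have hb2 : (z : ℝ) / 2 ≤ b := by
      have : z ≤ 2 * b := by omega
      have h3 : (z : ℝ) ≤ 2 * b := by exact_mod_cast this
      linarith
    have h4 : y ^ 7 ≤ (b : ℝ) := by
      refine le_trans ?_ hb2
      rw [← hy8]
      have : (0 : ℝ) ≤ y ^ 7 := by positivity
      calc y ^ 7 ≤ y ^ 7 * (y / 2) := by nlinarith
        _ = y ^ 8 / 2 := by ring
    refine hj1.trans ?_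
    calc y = (y ^ 7) ^ (1 / 7 : ℝ) := by
          rw [← Real.rpow_natCast, ← Real.rpow_mul hy0]; norm_num
      _ ≤ (b : ℝ) ^ (1 / 7 : ℝ) := Real.rpow_le_rpow (by positivity) h4 (by norm_num)
  · intro lam h1 h2
    set s : ℝ := Real.sqrt y with hs
    have hs0 : 0 < s := Real.sqrt_pos.2 (by linarith)
    have hss : s * s = y := Real.mul_self_sqrt hy0
    have hs1 : 1 ≤ s := by
      nlinarith
    have hsK : 66 * K ≤ s := by
      rw [hs]
      exact Real.le_sqrt_of_sq_le hyK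
    have hlog : Real.log lam ≤ 32 * s := by
      have h3 : lam ≤ s ^ 32 := by
        refine h2.trans (le_of_eq ?_)
        rw [← hy8, ← hss]
        ring
      calc Real.log lam ≤ Real.log (s ^ 32) := Real.log_le_log (by linarith) h3
        _ = 32 * Real.log s := by rw [Real.log_pow]; norm_num
        _ ≤ 32 * s := by
          have := Real.log_le_sub_one_of_pos hs0
          linarith
    calc K * (1 + Real.log lam) ≤ K * (s + 32 * s) := by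
          refine mul_le_mul_of_nonneg_left ?_ hK.le
          linarith
      _ = (66 * K) * s / 2 := by ring
      _ ≤ s * s / 2 := by nlinarith
      _ = y / 2 := by rw [hss]
      _ ≤ jz z := hj3

lemma card_lv {z : ℕ} (hz : 256 ≤ z) : (z : ℝ) / 200 ≤ (lv z).card ∧ ((lv z).card : ℝ) ≤ z := by
  constructor
  · have h1 : Ico ((815 * z + 999) / 1000) ((825 * z + 999) / 1000) ⊆ lv z := by
      intro b hb
      rw [mem_Ico] at hb
      rw [lv, mem_filter, mem_range]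
      omega
    have h2 := card_le_card h1
    rw [Nat.card_Ico] at h2
    have h3 : z ≤ 200 * (lv z).card := by omega
    have h4 : (z : ℝ) ≤ 200 * (lv z).card := by exact_mod_cast h3
    linarith
  · have h1 : (lv z).card ≤ z := (card_filter_le _ _).trans (by rw [card_range])
    exact_mod_cast h1

open Classical in
/-- lower bound for the sum of `Phi` over the points of one level -/
lemma levelA (low : LowStatement) (cls : ClsStatement) (phm : PhmStatement) :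
    ∃ (c C : ℝ) (z₀ : ℕ), 0 < c ∧ 0 < C ∧ ∀ (S : Set ℕ) (D lam : ℝ) (lo z b : ℕ), z₀ ≤ z →
      Inv S lo → Lim S D → 10 * lo ≤ 3 * z → 1 ≤ lam → lam ≤ (z : ℝ) ^ 2 → b ∈ lv z →
      0 ≤ D - C * (z : ℝ) ^ (-(1 / 38) : ℝ) →
      c / lam * (D - C * (z : ℝ) ^ (-(1 / 38) : ℝ)) ≤
        (∑ M ∈ Eb lam (jz z) S b, TP.Phi (jz z) ((M : ℕ) : ℤ)) / 2 ^ b := by
  obtain ⟨cL, K, hcL, hK, hlow⟩ := low
  obtain ⟨C, b₀, hC, hcls⟩ := cls
  obtain ⟨z₀, hz₀, hpar⟩ := params K hK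
  refine ⟨cL / 2, 2 * C, z₀ + 2 * b₀, by positivity, by positivity,
    fun S D lam lo z b hz hInv hLim hlo hl1 hl2 hb hδ => ?_⟩
  obtain ⟨hj2, hj400, -, -, hj7, hjK⟩ := hpar z (by omega)
  set j := jz z with hj
  have hb' : 815 * z ≤ 1000 * b := (mem_filter.1 hb).2.1
  have hzpos : 0 < z := by omega
  have hbpos : 0 < b := by omega
  have hbr : (0 : ℝ) < b := by exact_mod_cast hbpos
  have hzr : (0 : ℝ) < z := by exact_mod_cast hzpos
  set δ := D - C * (b : ℝ) ^ (-(1 / 38) : ℝ) with hδb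
  have hδ' : D - 2 * C * (z : ℝ) ^ (-(1 / 38) : ℝ) ≤ δ := by
    have h1 : (b : ℝ) ^ (-(1 / 38) : ℝ) ≤ 2 * (z : ℝ) ^ (-(1 / 38) : ℝ) := by
      have hb2 : (z : ℝ) / 2 ≤ b := by
        have : z ≤ 2 * b := by omega
        have h3 : (z : ℝ) ≤ 2 * b := by exact_mod_cast this
        linarith
      calc (b : ℝ) ^ (-(1 / 38) : ℝ) ≤ ((z : ℝ) / 2) ^ (-(1 / 38) : ℝ) :=
            Real.rpow_le_rpow_of_nonpos (by positivity) hb2 (by norm_num)
        _ = (1 / 2 : ℝ) ^ (-(1 / 38) : ℝ) * (z : ℝ) ^ (-(1 / 38) : ℝ) := by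
            rw [← Real.mul_rpow (by norm_num) hzr.le]
            congr 1
            ring
        _ ≤ 2 * (z : ℝ) ^ (-(1 / 38) : ℝ) := by
            refine mul_le_mul_of_nonneg_right ?_ (Real.rpow_nonneg hzr.le _)
            calc (1 / 2 : ℝ) ^ (-(1 / 38) : ℝ) ≤ (1 / 2 : ℝ) ^ (-1 : ℝ) :=
                  Real.rpow_le_rpow_of_exponent_ge (by norm_num) (by norm_num) (by norm_num)
              _ = 2 := by rw [Real.rpow_neg_one]; norm_num
    have h2 : C * (b : ℝ) ^ (-(1 / 38) : ℝ) ≤ C * (2 * (z : ℝ) ^ (-(1 / 38) : ℝ)) :=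
      mul_le_mul_of_nonneg_left h1 hC.le
    rw [hδb]
    linarith
  have hδ0 : 0 ≤ δ := hδ.trans hδ'
  have h1 := level S lam δ j j b (phm j hj2).2 (fun a ha =>
    hcls S D lo b j j a (by omega) hInv hLim (by omega) (hj7 b hb) (hj7 b hb) ha)
  have h2 := hlow lam j hl1 (hjK lam hl1 hl2)
  have h3 := (phm j hj2).1
  rw [le_div_iff₀ (by positivity)]
  refine le_trans ?_ h1
  have h4 : cL / lam * 2 ^ j * ((1 / 2 : ℝ) * 3 ^ j) ≤
      (((range (2 ^ j)).filter fun r => r ∈ Vr lam j).card : ℝ)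
        * ∑ x ∈ range (3 ^ j), TP.Phi j ((x : ℕ) : ℤ) :=
    mul_le_mul h2 h3 (by positivity) (Nat.cast_nonneg _)
  calc cL / 2 / lam * (D - 2 * C * (z : ℝ) ^ (-(1 / 38) : ℝ)) * 2 ^ b
      ≤ cL / 2 / lam * δ * 2 ^ b := by
        have : 0 ≤ cL / 2 / lam := by positivity
        gcongr
    _ = 2 ^ b / (2 ^ j * 3 ^ j) * δ * (cL / lam * 2 ^ j * ((1 / 2 : ℝ) * 3 ^ j)) := by
        field_simp
    _ ≤ _ := mul_le_mul_of_nonneg_left h4 (by positivity)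

lemma mem_fil {p : ℕ → Prop} (inst : DecidablePred p) {s : Finset ℕ} {i : ℕ} :
    i ∈ @Finset.filter ℕ p inst s ↔ i ∈ s ∧ p i := Finset.mem_filter

open Classical in
/-- the visits to the levels of the window -/
lemma vis_levels (S : Set ℕ) (lam : ℝ) (z n N : ℕ) :
    ∑ b ∈ lv z, vis (↑(Eb lam (jz z) S b)) n N ≤ vis (Vr lam (jz z) ∩ S ∩ Win z) n N := by
  unfold vis
  rw [← card_biUnion]
  · refine card_le_card fun i hi => ?_
    rw [mem_biUnion] at hi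
    obtain ⟨b, hb, hi⟩ := hi
    obtain ⟨hi, hE⟩ := (mem_fil _).1 hi
    rw [mem_coe, Eb, mem_filter, mem_Ico] at hE
    exact (mem_fil _).2 ⟨hi, ⟨hE.2.1, hE.2.2⟩, b, hb, hE.1.1, hE.1.2⟩
  · intro b _ b' _ hne
    refine Finset.disjoint_left.2 fun i hi hi' => hne ?_
    have h1 := ((mem_fil _).1 hi).2
    have h2 := ((mem_fil _).1 hi').2
    rw [mem_coe, Eb, mem_filter, mem_Ico] at h1 h2
    have h3 : b < b' + 1 := (Nat.pow_lt_pow_iff_right (by norm_num)).1 (h1.1.1.trans_lt h2.1.2)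
    have h4 : b' < b + 1 := (Nat.pow_lt_pow_iff_right (by norm_num)).1 (h2.1.1.trans_lt h1.1.2)
    omega

end FST

open FST in
/-- Row FST. -/
theorem fst (low : LowStatement) (cls : ClsStatement) (pvp : PvpStatement) (phm : PhmStatement) :
    FstStatement := by
  classical
  obtain ⟨c₁, C₁, z₁, hc₁, hC₁, hA⟩ := levelA low cls phm
  obtain ⟨cP, hcP, hpvp⟩ := pvp
  obtain ⟨CP, z₂, hCP, hP⟩ := hpvp 64
  obtain ⟨z₃, hz₃, hpar⟩ := params 1 one_pos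
  refine ⟨cP * c₁ / 200, C₁ + CP * (2 ^ 64 + 1), z₁ + z₂ + z₃, by positivity, by positivity,
    fun S D lam lo z hz hInv hLim hlo hl1 hl2 => ?_⟩
  obtain ⟨hj2, hj400, -, hj64, -, -⟩ := hpar z (by omega)
  have hzpos : 0 < z := by omega
  have hzr : (0 : ℝ) < z := by exact_mod_cast hzpos
  have hz1 : (1 : ℝ) ≤ z := by exact_mod_cast hzpos
  have hlam : 0 < lam := by linarith
  set C := C₁ + CP * (2 ^ 64 + 1) with hC
  have hV0 : (0 : ℝ) ≤ ∑ N ∈ Ico (2 ^ z) (2 ^ (z + 1)),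
      (vis (Vr lam (jz z) ∩ S ∩ Win z) (95 * z / 100) N : ℝ) :=
    Finset.sum_nonneg fun N _ => Nat.cast_nonneg _
  have hzp : 0 ≤ (z : ℝ) ^ (-(1 / 38) : ℝ) := Real.rpow_nonneg hzr.le _
  rcases lt_or_ge (D - C * (z : ℝ) ^ (-(1 / 38) : ℝ)) 0 with hδ | hδ
  · refine le_trans ?_ hV0
    have h1 : cP * c₁ / 200 * ((z : ℝ) / lam) * (D - C * (z : ℝ) ^ (-(1 / 38) : ℝ)) ≤ 0 :=
      mul_nonpos_of_nonneg_of_nonpos (by positivity) hδ.le
    have h2 : 0 ≤ C / (z : ℝ) ^ 2 := by positivity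
    exact mul_nonpos_of_nonneg_of_nonpos (by positivity) (by linarith)
  · set δ := D - C * (z : ℝ) ^ (-(1 / 38) : ℝ) with hδd
    have hδ1 : δ ≤ D - C₁ * (z : ℝ) ^ (-(1 / 38) : ℝ) := by
      have h1 : C₁ ≤ C := by
        rw [hC]
        have : 0 ≤ CP * (2 ^ 64 + 1) := by positivity
        linarith
      have h2 := mul_le_mul_of_nonneg_right h1 hzp
      rw [hδd]
      linarith
    -- the error terms
    have herr : CP * (z : ℝ) ^ 4 / (jz z : ℝ) ^ 64 + CP / (z : ℝ) ^ 4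
        ≤ CP * (2 ^ 64 + 1) / (z : ℝ) ^ 4 := by
      have hj0 : (0 : ℝ) < (jz z : ℝ) ^ 64 := by
        have : (0 : ℝ) < jz z := by exact_mod_cast (by omega : 0 < jz z)
        positivity
      have h1 : CP * (z : ℝ) ^ 4 / (jz z : ℝ) ^ 64 ≤ CP * 2 ^ 64 / (z : ℝ) ^ 4 := by
        rw [div_le_div_iff₀ hj0 (by positivity)]
        calc CP * (z : ℝ) ^ 4 * (z : ℝ) ^ 4 = CP * (z : ℝ) ^ 8 := by ring
          _ ≤ CP * (2 ^ 64 * (jz z : ℝ) ^ 64) := mul_le_mul_of_nonneg_left hj64 hCP.le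
          _ = CP * 2 ^ 64 * (jz z : ℝ) ^ 64 := by ring
      have h2 : CP * (2 ^ 64 + 1) / (z : ℝ) ^ 4
          = CP * 2 ^ 64 / (z : ℝ) ^ 4 + CP / (z : ℝ) ^ 4 := by
        rw [← add_div]
        ring
      rw [h2]
      linarith
    have hlev : ∀ b ∈ lv z, 2 ^ z * (cP * (c₁ / lam * δ) - CP * (2 ^ 64 + 1) / (z : ℝ) ^ 4) ≤
        ∑ N ∈ Ico (2 ^ z) (2 ^ (z + 1)),
          (vis (↑(Eb lam (jz z) S b)) (95 * z / 100) N : ℝ) := by
      intro b hb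
      refine le_trans ?_ (hP z b (jz z) (Eb lam (jz z) S b) (by omega) hb (by omega) hj400
        (filter_subset _ _))
      refine mul_le_mul_of_nonneg_left ?_ (by positivity)
      have h1 := hA S D lam lo z b (by omega) hInv hLim hlo hl1 hl2 hb (hδ.trans hδ1)
      have h2 : c₁ / lam * δ ≤ c₁ / lam * (D - C₁ * (z : ℝ) ^ (-(1 / 38) : ℝ)) :=
        mul_le_mul_of_nonneg_left hδ1 (by positivity)
      have h3 := mul_le_mul_of_nonneg_left (h2.trans h1) hcP.le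
      linarith
    have hsum : ∑ b ∈ lv z, ∑ N ∈ Ico (2 ^ z) (2 ^ (z + 1)),
          (vis (↑(Eb lam (jz z) S b)) (95 * z / 100) N : ℝ)
        ≤ ∑ N ∈ Ico (2 ^ z) (2 ^ (z + 1)),
          (vis (Vr lam (jz z) ∩ S ∩ Win z) (95 * z / 100) N : ℝ) := by
      rw [Finset.sum_comm]
      refine Finset.sum_le_sum fun N _ => ?_
      have := vis_levels S lam z (95 * z / 100) N
      exact_mod_cast this
    refine le_trans ?_ ((Finset.sum_le_sum hlev).trans hsum)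
    rw [Finset.sum_const, nsmul_eq_mul]
    obtain ⟨hl, hu⟩ := card_lv (z := z) (by omega)
    have hA0 : 0 ≤ cP * (c₁ / lam * δ) := by positivity
    have hB0 : 0 ≤ CP * (2 ^ 64 + 1) / (z : ℝ) ^ 4 := by positivity
    have h1 : (z : ℝ) / 200 * (cP * (c₁ / lam * δ)) ≤ (lv z).card * (cP * (c₁ / lam * δ)) :=
      mul_le_mul_of_nonneg_right hl hA0
    have h2 : (lv z).card * (CP * (2 ^ 64 + 1) / (z : ℝ) ^ 4)
        ≤ z * (CP * (2 ^ 64 + 1) / (z : ℝ) ^ 4) := mul_le_mul_of_nonneg_right hu hB0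
    have h3 : (z : ℝ) * (CP * (2 ^ 64 + 1) / (z : ℝ) ^ 4) ≤ C / (z : ℝ) ^ 2 := by
      rw [le_div_iff₀ (by positivity)]
      have h4 : (z : ℝ) * (CP * (2 ^ 64 + 1) / (z : ℝ) ^ 4) * (z : ℝ) ^ 2
          = CP * (2 ^ 64 + 1) / z := by
        field_simp
      rw [h4, hC]
      have h5 : CP * (2 ^ 64 + 1) / z ≤ CP * (2 ^ 64 + 1) := div_le_self (by positivity) hz1
      linarith
    have h6 : cP * c₁ / 200 * ((z : ℝ) / lam) * δ = (z : ℝ) / 200 * (cP * (c₁ / lam * δ)) := by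
      ring
    calc 2 ^ z * (cP * c₁ / 200 * ((z : ℝ) / lam) * δ - C / (z : ℝ) ^ 2)
        ≤ 2 ^ z * ((lv z).card * (cP * (c₁ / lam * δ))
            - (lv z).card * (CP * (2 ^ 64 + 1) / (z : ℝ) ^ 4)) := by
          refine mul_le_mul_of_nonneg_left ?_ (by positivity)
          rw [h6]
          linarith
      _ = (lv z).card * (2 ^ z * (cP * (c₁ / lam * δ) - CP * (2 ^ 64 + 1) / (z : ℝ) ^ 4)) := by
          ring

end Pool.Agent.Lib.MP_0a5adf_nt.WT.Div
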