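import Pool.Agent.Lib.MP_0a5adf_nt.WT.DivDefs

/-!
# Row HNV: invariance of `H z lo lam` above the window (MP_0a5adf_nt, helper58; hedge)
-/

set_option autoImplicit false

namespace Pool.Agent.Lib.MP_0a5adf_nt.WT.Div

open Finset Pool.Agent.Lib.MP_0a5adf_nt.H89

theorem hnvB : HnvStatement := by
  intro z lo lam hlo n hn
  constructor
  · rintro ⟨i, h1, h2, h3⟩
    cases i with
    | zero =>
      exfalso
      obtain ⟨b, hb, _, hb2⟩ := h3
      have hb' : 815 * z ≤ 1000 * b ∧ 1000 * b < 825 * z := (mem_filter.1 hb).2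
      have hle : b + 1 ≤ 825 * z / 1000 + 1 := by omega
      have : 2 ^ (b + 1) ≤ 2 ^ (825 * z / 1000 + 1) := Nat.pow_le_pow_right (by norm_num) hle
      have hn' : n < 2 ^ (b + 1) := by simpa using hb2
      omega
    | succ i =>
      refine ⟨i, fun k hk => ?_, ?_, ?_⟩
      · have := h1 (k + 1) (by omega)
        rwa [Function.iterate_succ_apply] at this
      · rwa [Function.iterate_succ_apply] at h2
      · rwa [Function.iterate_succ_apply] at h3
  · rintro ⟨i, h1, h2, h3⟩
    refine ⟨i + 1, fun k hk => ?_, ?_, ?_⟩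
    · cases k with
      | zero =>
        have : 2 ^ lo ≤ 2 ^ (825 * z / 1000 + 1) := Nat.pow_le_pow_right (by norm_num) (by omega)
        simpa using this.trans hn
      | succ k =>
        rw [Function.iterate_succ_apply]
        exact h1 k (by omega)
    · rwa [Function.iterate_succ_apply]
    · rwa [Function.iterate_succ_apply]

end Pool.Agent.Lib.MP_0a5adf_nt.WT.Div
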