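import Pool.Agent.Lib.MP_0a5adf_nt.WT.DivDefs
import Pool.Agent.Lib.MP_edb5be_nt.ND.Iface2

/-!
# Row PHM: mean and period of `Phi m`
-/

set_option autoImplicit false

namespace Pool.Agent.Lib.MP_0a5adf_nt.WT.Div

open Finset

theorem phm (hA : Pool.Agent.Lib.MP_edb5be_nt.ND.FFAStatement) : PhmStatement := by
  intro m hm
  refine ⟨?_, fun x y hxy => ?_⟩
  · have h1 := hA.2.1 m
    have h2 := hA.2.2.1 m
    rw [Finset.sum_sub_distrib, h1] at h2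
    have h3 : (3 / 5 : ℝ) ^ m ≤ (3 / 5 : ℝ) ^ 2 :=
      pow_le_pow_of_le_one (by norm_num) (by norm_num) hm
    have h4 : (0 : ℝ) < 3 ^ m := by positivity
    have h5 : (3 : ℝ) ^ m * (3 / 5 : ℝ) ^ m ≤ 3 ^ m * (3 / 5 : ℝ) ^ 2 :=
      mul_le_mul_of_nonneg_left h3 h4.le
    have h6 : (3 / 5 : ℝ) ^ 2 = 9 / 25 := by norm_num
    rw [h6] at h5
    linarith
  · have h1 : ((x : ℤ) : ZMod (3 ^ m)) = ((y : ℤ) : ZMod (3 ^ m)) := by
      rw [Int.cast_natCast, Int.cast_natCast]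
      exact (ZMod.natCast_eq_natCast_iff' x y (3 ^ m)).2 hxy
    unfold TP.Phi
    rw [h1]

end Pool.Agent.Lib.MP_0a5adf_nt.WT.Div
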