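import Pool.Agent.Lib.MP_0a5adf_nt.WT.Blk
import Pool.Agent.Lib.MP_0a5adf_nt.WT.DivDefs
import Pool.Agent.Lib.MP_edb5be_nt.ND.H72.PV1
import Pool.Agent.Lib.MP_edb5be_nt.ND.H82.S1BP

/-!
# Row PVP: first moment of the visits, power error
-/

set_option autoImplicit false

namespace Pool.Agent.Lib.MP_0a5adf_nt.WT.Div.PvpC

open Finset Pool.Agent.Lib.MP_0a5adf_nt.TP Pool.Agent.Lib.MP_0a5adf_nt.TP.H60
open Pool.Agent.Lib.MP_edb5be_nt.ND Pool.Agent.Lib.MP_edb5be_nt.ND.H72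
open Pool.Agent.Lib.MP_edb5be_nt.ND.H82 (Pc_nonneg nontyp mem_typ three_pow_le pos_of_mem_blk
  exp_bound_p)

/-- The first error term. -/
theorem errB' (hmix : MixStatement) {C₄ : ℝ} (hC : 0 < C₄) {A : ℕ}
    (hjosc : ∀ n c₁ : ℕ, 1 ≤ n → Josc n c₁ ≤ C₄ / (n : ℝ) ^ A) {d : Bool} {E : Finset ℕ}
    {k i m D : ℕ} {z x : ℝ} (hE : E ⊆ TP.blk k 1) (hm : 1 ≤ m)
    (hs : ∀ s ∈ typ i D, m ≤ s ∧ 3 ^ s ≤ 2 ^ k) :
    ∑ M ∈ E, 1 / (M : ℝ) * ∑ s ∈ typ i D, wd z x i s M * (3 ^ m * Pc m i s (sg d * M)) ≤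
      ∑ M ∈ E, 1 / (M : ℝ) * ∑ s ∈ typ i D, wd z x i s M * (3 ^ s * Pc s i s (sg d * M)) +
        ((i : ℝ) + 1) * (2 * (i * (C₄ / (m : ℝ) ^ A))) := by
  classical
  have hm0 : (0 : ℝ) < m := by exact_mod_cast hm
  have h1 : ∑ M ∈ E, 1 / (M : ℝ) * ∑ s ∈ typ i D, wd z x i s M * (3 ^ m * Pc m i s (sg d * M)) ≤
      ∑ M ∈ E, (1 / (M : ℝ) * ∑ s ∈ typ i D, wd z x i s M * (3 ^ s * Pc s i s (sg d * M)) +
        ∑ s ∈ typ i D, 1 / (M : ℝ) *
          |3 ^ s * Pc s i s (sg d * M) - 3 ^ m * Pc m i s (sg d * M)|) := by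
    refine Finset.sum_le_sum fun M _ => ?_
    rw [← Finset.mul_sum, ← mul_add, ← Finset.sum_add_distrib]
    refine mul_le_mul_of_nonneg_left (Finset.sum_le_sum fun s _ => ?_) (by positivity)
    have h2 := wd_nonneg z x i s M
    have h3 := wd_le z x i s M
    have h4 := neg_abs_le (3 ^ s * Pc s i s (sg d * M) - 3 ^ m * Pc m i s (sg d * M))
    have h5 := abs_nonneg (3 ^ s * Pc s i s (sg d * M) - 3 ^ m * Pc m i s (sg d * M))
    have h6 := mul_le_mul_of_nonneg_right h3 h5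
    have h7 := mul_le_mul_of_nonneg_left h4 h2
    rw [mul_sub] at h7
    linarith
  refine h1.trans ?_
  rw [Finset.sum_add_distrib]
  refine add_le_add le_rfl ?_
  rw [Finset.sum_comm]
  have h8 : ∀ s ∈ typ i D, ∑ M ∈ E, 1 / (M : ℝ) *
      |3 ^ s * Pc s i s (sg d * M) - 3 ^ m * Pc m i s (sg d * M)| ≤
        2 * (i * (C₄ / (m : ℝ) ^ A)) := by
    intro s hst
    obtain ⟨hms, h3s⟩ := hs s hst
    have hsi : s ≤ i := (mem_typ hst).1
    have hmx := hmix d m i s k 1 hms h3s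
    have hj : ∑ n ∈ Ioc m s, Josc n (i + 1) ≤ i * (C₄ / (m : ℝ) ^ A) := by
      refine (Finset.sum_le_card_nsmul _ _ (C₄ / (m : ℝ) ^ A) ?_).trans ?_
      · intro n hn
        obtain ⟨h1, h2⟩ := Finset.mem_Ioc.1 hn
        refine (hjosc n (i + 1) (by omega)).trans ?_
        apply div_le_div_of_nonneg_left hC.le (by positivity)
        apply pow_le_pow_left₀ hm0.le
        exact_mod_cast h1.le
      · rw [nsmul_eq_mul, Nat.card_Ioc]
        apply mul_le_mul_of_nonneg_right _ (by positivity)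
        exact_mod_cast (by omega : s - m ≤ i)
    calc ∑ M ∈ E, 1 / (M : ℝ) * |3 ^ s * Pc s i s (sg d * M) - 3 ^ m * Pc m i s (sg d * M)| ≤
        ∑ M ∈ TP.blk k 1, 1 / (M : ℝ) *
          |3 ^ s * Pc s i s (sg d * M) - 3 ^ m * Pc m i s (sg d * M)| :=
          Finset.sum_le_sum_of_subset_of_nonneg hE fun _ _ _ => by positivity
      _ ≤ _ := hmx
      _ ≤ 2 * (i * (C₄ / (m : ℝ) ^ A)) := by
          push_cast
          linarith
  refine (Finset.sum_le_card_nsmul _ _ _ h8).trans ?_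
  rw [nsmul_eq_mul]
  have h2 : ((typ i D).card : ℝ) ≤ (i : ℝ) + 1 := by
    have : (typ i D).card ≤ (range (i + 1)).card := Finset.card_le_card (Finset.filter_subset _ _)
    rw [Finset.card_range] at this
    exact_mod_cast this
  exact mul_le_mul_of_nonneg_right h2 (by positivity)

/-- The range of the times. -/
theorem range_j' {z b m c M j : ℕ} {τ : ℝ} (hz : 10 ^ 5 ≤ z) (hb1 : 815 * z ≤ 1000 * b)
    (hb2 : 1000 * b < 825 * z) (hm : 400 * m ≤ z) (hM : M ∈ TP.blk b 1) (hc : c ∈ Icc m (4 * m))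
    (hτ : τ = z - Real.logb 2 M - c + th * m) :
    (z : ℝ) / 10 ≤ τ ∧ (|(j : ℝ) - τ / mu| ≤ τ / 50 → j + c ∈ Icc (z / 2) (947 * z / 1000)) := by
  obtain ⟨hM1, hM2⟩ := Finset.mem_Ico.1 hM
  obtain ⟨hc1, hc2⟩ := Finset.mem_Icc.1 hc
  have hM0 : 0 < M := pos_of_mem_blk hM
  have hM0' : (0 : ℝ) < M := by exact_mod_cast hM0
  have hl1 : (b : ℝ) ≤ Real.logb 2 M := by
    rw [Real.le_logb_iff_rpow_le (by norm_num) hM0', Real.rpow_natCast]
    exact_mod_cast hM1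
  have hl2 : Real.logb 2 M ≤ b + 1 := by
    rw [Real.logb_le_iff_le_rpow (by norm_num) hM0']
    have : (2 : ℝ) ^ ((b : ℝ) + 1) = 2 ^ (b + 1) := by
      rw [← Real.rpow_natCast 2 (b + 1)]
      push_cast
      rfl
    rw [this]
    exact_mod_cast hM2.le
  have hz' : (10 : ℝ) ^ 5 ≤ z := by exact_mod_cast hz
  have hb1' : (815 : ℝ) * z ≤ 1000 * b := by exact_mod_cast hb1
  have hb2' : (1000 : ℝ) * b ≤ 825 * z := by exact_mod_cast hb2.le
  have hm1 : (400 : ℝ) * m ≤ z := by exact_mod_cast hm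
  have hc1' : (m : ℝ) ≤ c := by exact_mod_cast hc1
  have hc2' : (c : ℝ) ≤ 4 * m := by exact_mod_cast hc2
  have hm0 : (0 : ℝ) ≤ m := Nat.cast_nonneg m
  have hth := th_lt
  have hth' := th_gt
  have ht1 : 3 / 2 * (m : ℝ) ≤ th * m := mul_le_mul_of_nonneg_right hth'.le hm0
  have ht2 : th * (m : ℝ) ≤ 8 / 5 * m := mul_le_mul_of_nonneg_right hth.le hm0
  have hmu : mu = 1 - th / 2 := rfl
  have hmu1 : 1 / 5 < mu := by rw [hmu]; linarith
  have hmu2 : mu < 1 / 4 := by rw [hmu]; linarith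
  have hτ1 : (z : ℝ) / 10 ≤ τ := by rw [hτ]; linarith
  refine ⟨hτ1, fun hj => ?_⟩
  have hτ0 : 0 < τ := by linarith
  have h1 : 4 * τ ≤ τ / mu := by
    rw [le_div_iff₀ (by linarith)]
    nlinarith
  have h2 : τ / mu ≤ 5 * τ := by
    rw [div_le_iff₀ (by linarith)]
    nlinarith
  obtain ⟨h3, h4⟩ := abs_le.1 hj
  have h5 : (z : ℝ) ≤ 2 * (j + c) := by linarith
  have h6 : 1000 * ((j : ℝ) + c) ≤ 947 * z := by linarith
  have h5' : z ≤ 2 * (j + c) := by exact_mod_cast h5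
  have h6' : 1000 * (j + c) ≤ 947 * z := by exact_mod_cast h6
  exact Finset.mem_Icc.2 ⟨by omega, by omega⟩

theorem mem_fil {p : ℕ → Prop} (inst : DecidablePred p) {s : Finset ℕ} {i : ℕ} :
    i ∈ @Finset.filter ℕ p inst s ↔ i ∈ s ∧ p i := Finset.mem_filter

open Classical in
theorem visits_vis (E : Finset ℕ) (n N : ℕ) :
    ((range n).filter fun i => (TP.T true)^[i] N ∈ E).card ≤ vis (↑E) n N := by
  refine Finset.card_le_card fun i hi => ?_
  have h1 := (mem_fil _).1 hi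
  refine (mem_fil _).2 ⟨h1.1, ?_⟩
  have h2 := h1.2
  rw [T_true'] at h2
  exact h2

open Classical in
/-- Row PVP. -/
theorem pvp_c (hPV1A : PV1AStatement) (hmix : MixStatement) (hjosc : JoscStatement)
    (hps : PsplitStatement) (hphi : PhiStatement) (hh : HoeffStatement)
    (hR : RenewStatement) : PvpStatement := by
  obtain ⟨c₀, τ₀, hc₀, hren⟩ := hR
  refine ⟨c₀ / 2, by positivity, fun A => ?_⟩
  obtain ⟨CA, hCA, hjA⟩ := hjosc A
  set F : ℝ := Nat.factorial 25 * 4 ^ 25 with hF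
  have hF0 : 0 < F := by positivity
  refine ⟨4 * CA + 4 * F, max (2 * 10 ^ 10) (10 * ⌈|τ₀|⌉₊), by positivity, ?_⟩
  intro z b m E hz hb hm0 hm hE
  have hE : E ⊆ TP.blk b 1 := hE
  have hz10 : 2 * 10 ^ 10 ≤ z := (le_max_left _ _).trans hz
  have hzτ : 10 * ⌈|τ₀|⌉₊ ≤ z := (le_max_right _ _).trans hz
  obtain ⟨hb1, hb2⟩ := (mem_filter.1 hb).2
  have hz' : (2 : ℝ) * 10 ^ 10 ≤ z := by exact_mod_cast hz10
  have hz0 : (0 : ℝ) < z := by linarith
  have hb1' : (815 : ℝ) * z ≤ 1000 * b := by exact_mod_cast hb1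
  have hb2' : (1000 : ℝ) * b ≤ 825 * z := by exact_mod_cast hb2.le
  have hm1 : (400 : ℝ) * m ≤ z := by exact_mod_cast hm
  have hτk : τ₀ ≤ z / 10 := by
    have h1 : (10 : ℝ) * ⌈|τ₀|⌉₊ ≤ z := by exact_mod_cast hzτ
    have h2 := Nat.le_ceil |τ₀|
    have h3 := le_abs_self τ₀
    linarith
  -- the parameters
  obtain ⟨hD2, hD200⟩ := dev_small (K := z) (by omega)
  set D := dev z with hD
  have hD200' : 200 * (D : ℝ) ≤ z := by exact_mod_cast hD200
  set I : Finset ℕ := Icc (z / 2) (947 * z / 1000) with hI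
  have hIn : I ⊆ range (95 * z / 100) := by
    intro i hi
    obtain ⟨h1, h2⟩ := Finset.mem_Icc.1 hi
    exact Finset.mem_range.2 (by omega)
  set x : ℝ := (2 : ℝ) ^ (-((b : ℝ) / 20)) with hx
  have hx0 : 0 < x := Real.rpow_pos_of_pos (by norm_num) _
  have hx1 : x ≤ 1 / 20 := by
    have h1 : x ≤ (2 : ℝ) ^ (-(5 : ℝ)) :=
      Real.rpow_le_rpow_of_exponent_le (by norm_num) (by linarith)
    have h2 : (2 : ℝ) ^ (-(5 : ℝ)) = 1 / 32 := by
      rw [Real.rpow_neg (by norm_num)]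
      norm_num
    rw [h2] at h1
    linarith
  have hmr : (0 : ℝ) < m := by exact_mod_cast hm0
  have hIb : ∀ i ∈ I, z ≤ 2 * i + 1 ∧ 1000 * i ≤ 947 * z := by
    intro i hi
    obtain ⟨h1, h2⟩ := Finset.mem_Icc.1 hi
    omega
  have h4m : ∀ i ∈ I, 4 * m ≤ i := by
    intro i hi
    have := hIb i hi
    omega
  have hth := th_lt
  have hth' := th_gt
  have htyp : ∀ i ∈ I, ∀ s ∈ typ i D, m ≤ s ∧ 3 ^ s ≤ 2 ^ b ∧ (3 : ℝ) ^ s ≤ x * 2 ^ b := by
    intro i hi s hs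
    obtain ⟨h1, h2, h3⟩ := mem_typ hs
    obtain ⟨h4, h5⟩ := hIb i hi
    have h4' : (z : ℝ) ≤ 2 * i + 1 := by exact_mod_cast h4
    have h5' : (1000 : ℝ) * i ≤ 947 * z := by exact_mod_cast h5
    refine ⟨?_, ?_, ?_⟩
    · have : (m : ℝ) ≤ s := by linarith
      exact_mod_cast this
    · refine three_pow_le ?_
      linarith
    · rw [three_pow, hx, ← Real.rpow_natCast 2 b, ← Real.rpow_add (by norm_num)]
      refine Real.rpow_le_rpow_of_exponent_le (by norm_num) ?_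
      have := mul_le_mul_of_nonneg_right hth.le (Nat.cast_nonneg (α := ℝ) s)
      linarith
  have h3m : 3 ^ m ≤ 2 ^ b := by
    refine three_pow_le ?_
    linarith
  -- the visits at time `i`
  have hstep : ∀ i ∈ I, 2 ^ z * ∑ M ∈ E, 1 / (M : ℝ) *
      ∑ s ∈ Icc m i, wd z x i s M * (3 ^ m * Pc m i s (sg true * M)) ≤
      (((Ico (2 ^ z) (2 ^ (z + 1))).filter fun N => (TP.T true)^[i] N ∈ E).card : ℝ) +
      2 ^ z * (4 * CA * (z : ℝ) ^ 3 / (m : ℝ) ^ A + 4 * F / (z : ℝ) ^ 5) := by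
    intro i hi
    obtain ⟨h4, h5⟩ := hIb i hi
    have h1 := hPV1A true b z i D E x hE hx0 (by linarith) fun s hs => (htyp i hi s hs).2.2
    have h2 := errB' hmix hCA hjA (d := true) (z := z) (x := x) hE hm0
      (fun s hs => ⟨(htyp i hi s hs).1, (htyp i hi s hs).2.1⟩)
    have h3 := errC hphi hh (d := true) (z := z) (x := x) (D := D) (i := i) hE h3m
      (fun s hs => (htyp i hi s hs).1)
    have e1 : ∀ M : ℕ, (∑ s ∈ typ i D,
        (if z + 2 * x ≤ Real.logb 2 M + i - th * s ∧ Real.logb 2 M + i - th * s ≤ z + 1 - 2 * x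
          then 3 ^ s * Pc s i s (sg true * M) else 0)) =
        ∑ s ∈ typ i D, wd z x i s M * (3 ^ s * Pc s i s (sg true * M)) := by
      intro M
      refine Finset.sum_congr rfl fun s _ => ?_
      unfold wd
      split_ifs
      · rw [one_mul]
      · rw [zero_mul]
    simp_rw [e1] at h1
    have hb1 : ((i : ℝ) + 1) * (2 * (i * (CA / (m : ℝ) ^ A))) ≤
        4 * CA * (z : ℝ) ^ 3 / (m : ℝ) ^ A := by
      have hi1 : (i : ℝ) + 1 ≤ z := by
        have : i + 1 ≤ z := by omega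
        exact_mod_cast this
      have hi2 : (i : ℝ) ≤ z := by linarith
      have hi0 : (0 : ℝ) ≤ i := Nat.cast_nonneg i
      have hq : 0 ≤ CA / (m : ℝ) ^ A := by positivity
      calc ((i : ℝ) + 1) * (2 * (i * (CA / (m : ℝ) ^ A))) ≤
          z * (2 * (z * (CA / (m : ℝ) ^ A))) := by gcongr
        _ = 2 * (CA / (m : ℝ) ^ A) * (z : ℝ) ^ 2 := by ring
        _ ≤ 2 * (CA / (m : ℝ) ^ A) * (2 * (z : ℝ) ^ 3) := by
          refine mul_le_mul_of_nonneg_left ?_ (by positivity)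
          have : (z : ℝ) ^ 2 * 1 ≤ (z : ℝ) ^ 2 * (2 * z) :=
            mul_le_mul_of_nonneg_left (by linarith) (by positivity)
          calc (z : ℝ) ^ 2 = (z : ℝ) ^ 2 * 1 := by ring
            _ ≤ (z : ℝ) ^ 2 * (2 * z) := this
            _ = 2 * (z : ℝ) ^ 3 := by ring
        _ = 4 * CA * (z : ℝ) ^ 3 / (m : ℝ) ^ A := by ring
    have hb2 : 4 * Real.exp (-((D : ℝ) ^ 2 / (2 * i))) ≤ 4 * F / (z : ℝ) ^ 5 := by
      have h6 := exp_bound_p 5 (K := z) (i := i) (by omega) (by omega) (by omega)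
      rw [← hD] at h6
      rw [le_div_iff₀ (by positivity)]
      have h7 : (Nat.factorial (5 * 5) * 4 ^ (5 * 5) : ℝ) = F := by rw [hF]
      rw [h7] at h6
      linarith
    have h8 : ∑ M ∈ E, 1 / (M : ℝ) *
        ∑ s ∈ Icc m i, wd z x i s M * (3 ^ m * Pc m i s (sg true * M)) ≤
        ∑ M ∈ E, 1 / (M : ℝ) *
          ∑ s ∈ typ i D, wd z x i s M * (3 ^ s * Pc s i s (sg true * M)) +
        (4 * CA * (z : ℝ) ^ 3 / (m : ℝ) ^ A + 4 * F / (z : ℝ) ^ 5) := by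
      linarith
    have h9 : (0 : ℝ) < 2 ^ z := by positivity
    have h10 := mul_le_mul_of_nonneg_left h8 h9.le
    rw [mul_add] at h10
    linarith
  -- the main term
  have hmain := main_term hps (d := true) (E := E) (I := I) (k := b) (m := m) (z := z) (x := x)
    (c₀ := c₀) hE h4m hc₀.le fun M hM c hc => by
      obtain ⟨hτ1, -⟩ := range_j' (j := 0) (by omega) hb1 hb2 hm (hE hM) hc rfl
      have h1 := hren _ (2 * x) (hτk.trans hτ1) (by linarith) (by linarith)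
      refine renew_shift h1 (Finset.mem_Icc.1 hc).1 rfl rfl fun j hj => ?_
      exact (range_j' (by omega) hb1 hb2 hm (hE hM) hc rfl).2 (Finset.mem_filter.1 hj).2
  have hsum := Finset.sum_le_sum hstep
  rw [← Finset.mul_sum, Finset.sum_add_distrib, Finset.sum_const, nsmul_eq_mul] at hsum
  have hvis := visits true E I (2 ^ z) (2 ^ (z + 1)) (95 * z / 100) hIn
  have hvis' : ∑ N ∈ Ico (2 ^ z) (2 ^ (z + 1)),
      (((range (95 * z / 100)).filter fun i => (TP.T true)^[i] N ∈ E).card : ℝ) ≤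
      ∑ N ∈ Ico (2 ^ z) (2 ^ (z + 1)), (vis (↑E) (95 * z / 100) N : ℝ) :=
    Finset.sum_le_sum fun N _ => by exact_mod_cast visits_vis E (95 * z / 100) N
  have hcard : (I.card : ℝ) ≤ z := by
    have : I.card ≤ z := by
      rw [hI, Nat.card_Icc]
      omega
    exact_mod_cast this
  set Q : ℝ := 4 * CA * (z : ℝ) ^ 3 / (m : ℝ) ^ A + 4 * F / (z : ℝ) ^ 5 with hQ
  have hQ0 : 0 ≤ Q := by positivity
  have h2z : (0 : ℝ) < 2 ^ z := by positivity
  have h11 : (I.card : ℝ) * (2 ^ z * Q) ≤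
      2 ^ z * ((4 * CA + 4 * F) * (z : ℝ) ^ 4 / (m : ℝ) ^ A + (4 * CA + 4 * F) / (z : ℝ) ^ 4) := by
    calc (I.card : ℝ) * (2 ^ z * Q) ≤ z * (2 ^ z * Q) :=
          mul_le_mul_of_nonneg_right hcard (by positivity)
      _ = 2 ^ z * (4 * CA * (z : ℝ) ^ 4 / (m : ℝ) ^ A + 4 * F / (z : ℝ) ^ 4) := by
          rw [hQ]
          field_simp
      _ ≤ _ := by
          refine mul_le_mul_of_nonneg_left (add_le_add ?_ ?_) h2z.le
          · refine div_le_div_of_nonneg_right ?_ (by positivity)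
            refine mul_le_mul_of_nonneg_right ?_ (by positivity)
            linarith
          · refine div_le_div_of_nonneg_right ?_ (by positivity)
            linarith
  have h12 := mul_le_mul_of_nonneg_left hmain h2z.le
  have hsg : ∀ M : ℕ, Phi m (sg true * (M : ℤ)) = Phi m ((M : ℕ) : ℤ) := by
    intro M
    have : sg true = 1 := rfl
    rw [this, one_mul]
  simp only [hsg] at h12
  have h13 := mul_add ((2 : ℝ) ^ z) ((4 * CA + 4 * F) * (z : ℝ) ^ 4 / (m : ℝ) ^ A)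
    ((4 * CA + 4 * F) / (z : ℝ) ^ 4)
  rw [mul_sub, mul_sub]
  linarith

end Pool.Agent.Lib.MP_0a5adf_nt.WT.Div.PvpC
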