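import Pool.Agent.Lib.MP_0a5adf_nt.WT.DivDefs

/-!
# Row REC: the recursion along `z_k = 4 ^ k * z₀`
-/

set_option autoImplicit false

namespace Pool.Agent.Lib.MP_0a5adf_nt.WT.Div

open Filter

namespace RecH

theorem rpow_eq (z₀ k : ℕ) :
    (((4 ^ k * z₀ : ℕ) : ℝ)) ^ (-(1 / 38) : ℝ) =
      ((4 : ℝ) ^ (-(1 / 38) : ℝ)) ^ k * (z₀ : ℝ) ^ (-(1 / 38) : ℝ) := by
  push_cast
  rw [Real.mul_rpow (by positivity) (by positivity)]
  congr 1
  rw [← Real.rpow_natCast, ← Real.rpow_mul (by norm_num), mul_comm, Real.rpow_mul (by norm_num),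
    Real.rpow_natCast]

theorem summable_rpow (C : ℝ) (z₀ : ℕ) :
    Summable fun k : ℕ => C * (((4 ^ k * z₀ : ℕ) : ℝ)) ^ (-(1 / 38) : ℝ) := by
  have h1 : (4 : ℝ) ^ (-(1 / 38) : ℝ) < 1 :=
    Real.rpow_lt_one_of_one_lt_of_neg (by norm_num) (by norm_num)
  have h2 : Summable fun k : ℕ => ((4 : ℝ) ^ (-(1 / 38) : ℝ)) ^ k :=
    summable_geometric_of_lt_one (by positivity) h1
  have h3 := (h2.mul_right ((z₀ : ℝ) ^ (-(1 / 38) : ℝ))).mul_left C
  refine h3.congr fun k => ?_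
  rw [rpow_eq]

theorem summable_inv (z₀ : ℕ) : Summable fun k : ℕ => 1 / (((4 ^ k * z₀ : ℕ) : ℝ)) := by
  have h2 : Summable fun k : ℕ => ((1 : ℝ) / 4) ^ k :=
    summable_geometric_of_lt_one (by norm_num) (by norm_num)
  have h3 := h2.mul_right (1 / (z₀ : ℝ))
  refine h3.congr fun k => ?_
  push_cast
  rw [one_div_pow, div_mul_div_comm, one_mul]

end RecH

open RecH

/-- Row REC. -/
theorem rec_row : RecStatement := by
  intro c C z₀ p lam hc hC hz hp hlam hrec hns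
  have hanti : Antitone p := antitone_nat_of_succ_le fun k => (hp k).2.2
  have hbdd : BddBelow (Set.range p) := ⟨0, by rintro _ ⟨k, rfl⟩; exact (hp k).1⟩
  have hlim := tendsto_atTop_ciInf hanti hbdd
  set q : ℝ := ⨅ k, p k with hq
  have hq0 : 0 ≤ q := le_ciInf fun k => (hp k).1
  have hqp : ∀ k, q ≤ p k := fun k => ciInf_le hbdd k
  rcases hq0.eq_or_lt with h0 | hpos
  · rw [← h0] at hlim
    exact hlim
  exfalso
  apply hns
  have hzpos : ∀ k : ℕ, (0 : ℝ) < ((4 ^ k * z₀ : ℕ) : ℝ) := by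
    intro k
    have : 0 < 4 ^ k * z₀ := by positivity
    exact_mod_cast this
  have hlpos : ∀ k, 0 < lam k := fun k => lt_of_lt_of_le one_pos (hlam k).1
  have hx0 : ∀ k, 0 ≤ ((4 ^ k * z₀ : ℕ) : ℝ) / lam k := fun k =>
    div_nonneg (hzpos k).le (hlpos k).le
  -- the differences are summable
  have hs1 : Summable fun k => p k - p (k + 1) := by
    refine summable_of_sum_range_le (c := 1) (fun k => sub_nonneg.mpr (hp k).2.2) fun n => ?_
    rw [Finset.sum_range_sub']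
    linarith [(hp 0).2.1, (hp n).1]
  have hs2 := summable_rpow C z₀
  have hs3 := summable_inv z₀
  have hcq : 0 < c * q ^ 2 := by positivity
  have hs4 : Summable fun k => (c * q ^ 2)⁻¹ * ((p k - p (k + 1)) +
      C * (((4 ^ k * z₀ : ℕ) : ℝ)) ^ (-(1 / 38) : ℝ)) + 1 / (((4 ^ k * z₀ : ℕ) : ℝ)) :=
    ((hs1.add hs2).mul_left _).add hs3
  have hmin : Summable fun k : ℕ => min 1 (((4 ^ k * z₀ : ℕ) : ℝ) / lam k) := by
    refine Summable.of_nonneg_of_le (fun k => le_min zero_le_one (hx0 k)) (fun k => ?_) hs4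
    by_cases hk : lam k ≤ ((4 ^ k * z₀ : ℕ) : ℝ) ^ 2
    · have h1 := hrec k hk
      set m := min 1 (((4 ^ k * z₀ : ℕ) : ℝ) / lam k) with hm
      have hm0 : 0 ≤ m := le_min zero_le_one (hx0 k)
      have h2 : q ^ 2 ≤ p k ^ 2 := pow_le_pow_left₀ hq0 (hqp k) 2
      have h3 : c * m * q ^ 2 ≤ c * m * p k ^ 2 :=
        mul_le_mul_of_nonneg_left h2 (mul_nonneg hc.le hm0)
      have h4 : (c * q ^ 2) * m ≤ (p k - p (k + 1)) +
          C * (((4 ^ k * z₀ : ℕ) : ℝ)) ^ (-(1 / 38) : ℝ) := by nlinarith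
      have h5 : m ≤ (c * q ^ 2)⁻¹ * ((p k - p (k + 1)) +
          C * (((4 ^ k * z₀ : ℕ) : ℝ)) ^ (-(1 / 38) : ℝ)) := by
        rw [inv_mul_eq_div, le_div_iff₀ hcq, mul_comm]
        exact h4
      have h6 : 0 ≤ 1 / (((4 ^ k * z₀ : ℕ) : ℝ)) := by
        have := (hzpos k).le
        positivity
      linarith
    · have hk' := not_le.mp hk
      have h1 : ((4 ^ k * z₀ : ℕ) : ℝ) / lam k ≤ 1 / (((4 ^ k * z₀ : ℕ) : ℝ)) := by
        rw [div_le_div_iff₀ (hlpos k) (hzpos k), one_mul, ← sq]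
        exact hk'.le
      have h2 : 0 ≤ (c * q ^ 2)⁻¹ * ((p k - p (k + 1)) +
          C * (((4 ^ k * z₀ : ℕ) : ℝ)) ^ (-(1 / 38) : ℝ)) := by
        have h3 : 0 ≤ p k - p (k + 1) := sub_nonneg.mpr (hp k).2.2
        have h4 : 0 ≤ (((4 ^ k * z₀ : ℕ) : ℝ)) ^ (-(1 / 38) : ℝ) :=
          Real.rpow_nonneg (hzpos k).le _
        positivity
      exact (min_le_right _ _).trans (by linarith)
  have hev : ∀ᶠ k : ℕ in atTop, min 1 (((4 ^ k * z₀ : ℕ) : ℝ) / lam k) < 1 :=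
    hmin.tendsto_atTop_zero.eventually (gt_mem_nhds one_pos)
  refine Summable.of_norm_bounded_eventually_nat hmin ?_
  filter_upwards [hev] with k hk
  rw [Real.norm_of_nonneg (hx0 k)]
  refine le_min ?_ le_rfl
  rcases min_lt_iff.mp hk with h | h
  · exact absurd h (lt_irrefl _)
  · exact h.le

/-- Row REC (the other name). -/
theorem rec_ : RecStatement := rec_row

end Pool.Agent.Lib.MP_0a5adf_nt.WT.Div
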