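import Pool.Agent.Lib.MP_0a5adf_nt.WT.DivDefs

/-!
# Row SEC: second moment of the visits (helper11)
-/

set_option autoImplicit false

namespace Pool.Agent.Lib.MP_0a5adf_nt.WT.Div

open Finset Pool.Agent.Lib.MP_0a5adf_nt.H89

namespace Sec

theorem sum_mul_range (A B : ℕ) (F : ℕ → ℝ) :
    ∑ N ∈ range (A * B), F N = ∑ n ∈ range A, ∑ a ∈ range B, F (n + A * a) := by
  rw [sum_comm]
  induction B with
  | zero => simp
  | succ B ih =>
    rw [Nat.mul_succ, sum_range_add, ih, sum_range_succ]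
    congr 1
    exact sum_congr rfl fun n _ => by rw [add_comm]

theorem affine_sum (j c u : ℕ) (hu : Nat.Coprime u (2 ^ j)) (f : ℕ → ℝ)
    (hf : ∀ m, f (m % 2 ^ j) = f m) :
    ∑ a ∈ range (2 ^ j), f (c + u * a) = ∑ m ∈ range (2 ^ j), f m := by
  have hinj : Set.InjOn (fun a => (c + u * a) % 2 ^ j) (range (2 ^ j) : Finset ℕ) := by
    intro a ha a' ha' h
    rw [coe_range, Set.mem_Iio] at ha ha'
    have h1 : c + u * a ≡ c + u * a' [MOD 2 ^ j] := h
    have h2 : u * a ≡ u * a' [MOD 2 ^ j] := Nat.ModEq.add_left_cancel' c h1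
    have h3 : a ≡ a' [MOD 2 ^ j] := Nat.ModEq.cancel_left_of_coprime hu.symm h2
    have h4 : a % 2 ^ j = a' % 2 ^ j := h3
    rwa [Nat.mod_eq_of_lt ha, Nat.mod_eq_of_lt ha'] at h4
  have hmaps : ∀ a ∈ range (2 ^ j), (c + u * a) % 2 ^ j ∈ range (2 ^ j) := fun a _ =>
    mem_range.2 (Nat.mod_lt _ (by positivity))
  refine sum_nbij (fun a => (c + u * a) % 2 ^ j) hmaps hinj ?_ ?_
  · exact surjOn_of_injOn_of_card_le _ hmaps hinj le_rfl
  · intro a _
    exact (hf _).symm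

theorem indep (i j : ℕ) (G : ℕ → ℕ → ℝ) (h1 : ∀ n a y, G (n + 2 ^ i * a) y = G n y)
    (h2 : ∀ n y, G n (y % 2 ^ j) = G n y) :
    ∑ N ∈ range (2 ^ (i + j)), G N (T^[i] N) =
      ∑ n ∈ range (2 ^ i), ∑ m ∈ range (2 ^ j), G n m := by
  rw [pow_add, sum_mul_range]
  refine sum_congr rfl fun n _ => ?_
  rw [← affine_sum j (T^[i] n) (3 ^ o i n) ?_ (G n) (h2 n)]
  · refine sum_congr rfl fun a _ => ?_
    rw [h1, (shift i n a).1]
  · exact Nat.Coprime.pow _ _ (by norm_num)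

theorem W_per {t j : ℕ} (h : t ≤ j) (m a : ℕ) : W t (m + 2 ^ j * a) = W t m := by
  obtain ⟨d, rfl⟩ := Nat.exists_eq_add_of_le h
  have := (shift t m (2 ^ d * a)).2
  rw [← mul_assoc, ← pow_add] at this
  simp [W, this]

theorem o_add (e t m : ℕ) : o (e + t) m = o e m + o t (T^[e] m) := by
  unfold o
  rw [sum_range_add]
  congr 1
  refine sum_congr rfl fun i _ => ?_
  rw [add_comm e i, Function.iterate_add_apply]

theorem W_add (e t m : ℕ) : W (e + t) m = W e m * W t (T^[e] m) := by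
  unfold W
  rw [o_add, pow_add, pow_add]
  field_simp

theorem Vr_per {lam : ℝ} {j J : ℕ} (h : j ≤ J) (m a : ℕ) :
    m + 2 ^ J * a ∈ Vr lam j ↔ m ∈ Vr lam j := by
  unfold Vr
  constructor
  · rintro ⟨t, ht, h1⟩
    exact ⟨t, ht, by rwa [W_per (ht.trans h)] at h1⟩
  · rintro ⟨t, ht, h1⟩
    exact ⟨t, ht, by rwa [W_per (ht.trans h)]⟩

theorem Hit_per {mu : ℝ} {j J : ℕ} (h : j ≤ J) (m a : ℕ) :
    Hit mu j (m + 2 ^ J * a) ↔ Hit mu j m := by
  unfold Hit
  constructor
  · rintro ⟨t, ht, h1⟩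
    exact ⟨t, ht, by rwa [W_per (ht.trans h)] at h1⟩
  · rintro ⟨t, ht, h1⟩
    exact ⟨t, ht, by rwa [W_per (ht.trans h)]⟩

open Classical in
/-- indicator of a rise -/
noncomputable def v (lam : ℝ) (j m : ℕ) : ℝ := if m ∈ Vr lam j then 1 else 0

open Classical in
/-- indicator of a hit -/
noncomputable def ht (mu : ℝ) (j m : ℕ) : ℝ := if Hit mu j m then 1 else 0

theorem v_nonneg (lam : ℝ) (j m : ℕ) : 0 ≤ v lam j m := by unfold v; split_ifs <;> norm_num

theorem ht_nonneg (mu : ℝ) (j m : ℕ) : 0 ≤ ht mu j m := by unfold ht; split_ifs <;> norm_num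

theorem v_le_one (lam : ℝ) (j m : ℕ) : v lam j m ≤ 1 := by unfold v; split_ifs <;> norm_num

theorem v_per {lam : ℝ} {j J : ℕ} (h : j ≤ J) (m a : ℕ) : v lam j (m + 2 ^ J * a) = v lam j m := by
  classical
  unfold v
  exact if_congr (Vr_per h m a) rfl rfl

theorem ht_per {mu : ℝ} {j J : ℕ} (h : j ≤ J) (m a : ℕ) :
    ht mu j (m + 2 ^ J * a) = ht mu j m := by
  classical
  unfold ht
  exact if_congr (Hit_per h m a) rfl rfl

theorem per_mod {f : ℕ → ℝ} {J : ℕ} (h : ∀ m a, f (m + 2 ^ J * a) = f m) (m : ℕ) :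
    f (m % 2 ^ J) = f m := by
  conv_rhs => rw [← Nat.mod_add_div m (2 ^ J)]
  exact (h _ _).symm

theorem v_le_ht (lam : ℝ) (j m : ℕ) : v lam j m ≤ ht lam j m := by
  unfold v ht
  by_cases h : m ∈ Vr lam j
  · obtain ⟨t, h1, h2⟩ := h
    rw [if_pos ⟨t, h1, h2⟩, if_pos ⟨t, h1, h2.le⟩]
  · rw [if_neg h]
    split_ifs <;> norm_num

theorem ht_mono {mu : ℝ} {j J : ℕ} (h : j ≤ J) (m : ℕ) : ht mu j m ≤ ht mu J m := by
  unfold ht
  by_cases h1 : Hit mu j m
  · obtain ⟨t, h2, h3⟩ := h1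
    rw [if_pos ⟨t, h2, h3⟩, if_pos ⟨t, h2.trans h, h3⟩]
  · rw [if_neg h1]
    split_ifs <;> norm_num

theorem sum_ht_le {mu : ℝ} (hmu : 0 < mu) {j J : ℕ} (h : j ≤ J) :
    ∑ m ∈ range (2 ^ J), ht mu j m ≤ 2 ^ J / mu := by
  classical
  refine (sum_le_sum fun m _ => ht_mono (mu := mu) h m).trans ?_
  rw [le_div_iff₀ hmu, mul_comm]
  have h1 := ville mu J
  have h2 : (∑ n ∈ range (2 ^ J), if Hit mu J n then W J n else 0) ≤ ∑ n ∈ range (2 ^ J), W J n := by
    refine sum_le_sum fun n _ => ?_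
    split_ifs
    · exact le_rfl
    · exact (W_pos J n).le
  rw [total] at h2
  exact h1.trans h2

theorem sum_v_le {lam : ℝ} (hlam : 0 < lam) {j J : ℕ} (h : j ≤ J) :
    ∑ m ∈ range (2 ^ J), v lam j m ≤ 2 ^ J / lam :=
  (sum_le_sum fun m _ => v_le_ht lam j m).trans (sum_ht_le hlam h)

theorem v_mul_le {lam : ℝ} (hlam : 1 ≤ lam) (j e m : ℕ) :
    v lam j m * v lam j (T^[e] m) ≤
      ht lam e m * v lam j (T^[e] m) + ht (lam * (W e m) ^ (-(1 / 2) : ℝ)) j (T^[e] m) := by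
  by_cases h1 : m ∈ Vr lam j
  swap
  · have e1 : v lam j m = 0 := by unfold v; rw [if_neg h1]
    rw [e1, zero_mul]
    exact add_nonneg (mul_nonneg (ht_nonneg _ _ _) (v_nonneg _ _ _)) (ht_nonneg _ _ _)
  by_cases h2 : T^[e] m ∈ Vr lam j
  swap
  · have e1 : v lam j (T^[e] m) = 0 := by unfold v; rw [if_neg h2]
    rw [e1, mul_zero, mul_zero, zero_add]
    exact ht_nonneg _ _ _
  obtain ⟨t, ht1, ht2⟩ := h1
  have e2 : v lam j (T^[e] m) = 1 := by unfold v; rw [if_pos h2]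
  rw [e2, mul_one, mul_one]
  refine (v_le_one lam j m).trans ?_
  rcases Nat.lt_or_ge e t with h3 | h3
  · -- the rise happens after `e` steps
    obtain ⟨t', h4, h5⟩ := h2
    obtain ⟨d, rfl⟩ := Nat.exists_eq_add_of_lt h3
    have h6 : W (e + (d + 1)) m = W e m * W (d + 1) (T^[e] m) := W_add e (d + 1) m
    have hx := W_pos e m
    set x := W e m with hxd
    have h7 : Hit (lam * x ^ (-(1 / 2) : ℝ)) j (T^[e] m) := by
      rcases le_or_gt 1 x with h8 | h8
      · refine ⟨t', h4, ?_⟩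
        have h9 : x ^ (-(1 / 2) : ℝ) ≤ 1 := Real.rpow_le_one_of_one_le_of_nonpos h8 (by norm_num)
        nlinarith
      · refine ⟨d + 1, by omega, ?_⟩
        have h9 : x ^ (-(1 / 2) : ℝ) ≤ x⁻¹ := by
          rw [← Real.rpow_neg_one]
          exact Real.rpow_le_rpow_of_exponent_ge hx h8.le (by norm_num)
        have h10 : lam < x * W (d + 1) (T^[e] m) := by
          rw [← h6]
          exact ht2
        have h11 : lam * x⁻¹ ≤ W (d + 1) (T^[e] m) := by
          rw [← div_eq_mul_inv, div_le_iff₀ hx]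
          linarith
        exact (mul_le_mul_of_nonneg_left h9 (by linarith)).trans h11
    have e3 : ht (lam * x ^ (-(1 / 2) : ℝ)) j (T^[e] m) = 1 := by unfold ht; rw [if_pos h7]
    rw [e3]
    have := ht_nonneg lam e m
    linarith
  · have h7 : Hit lam e m := ⟨t, h3, ht2.le⟩
    have e3 : ht lam e m = 1 := by unfold ht; rw [if_pos h7]
    rw [e3]
    have := ht_nonneg (lam * (W e m) ^ (-(1 / 2) : ℝ)) j (T^[e] m)
    linarith

theorem pair_le {lam : ℝ} (hlam : 1 ≤ lam) {j e J : ℕ} (h : e + j ≤ J) :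
    ∑ m ∈ range (2 ^ J), v lam j m * v lam j (T^[e] m) ≤
      2 ^ J * (1 / lam ^ 2 + (Mh / 2) ^ e / lam) := by
  obtain ⟨k, rfl⟩ := Nat.exists_eq_add_of_le (show e ≤ J by omega)
  have hjk : j ≤ k := by omega
  have hl0 : 0 < lam := by linarith
  refine (sum_le_sum fun m _ => v_mul_le hlam j e m).trans ?_
  have h1 := indep e k (fun n y => ht lam e n * v lam j y + ht (lam * (W e n) ^ (-(1 / 2) : ℝ)) j y)
    (fun n a y => by
      rw [ht_per le_rfl, W_per le_rfl])
    (fun n y => by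
      rw [per_mod (f := v lam j) (fun m a => v_per hjk m a),
        per_mod (f := ht (lam * (W e n) ^ (-(1 / 2) : ℝ)) j) (fun m a => ht_per hjk m a)])
  rw [h1]
  have h2 : ∀ n ∈ range (2 ^ e), ∑ m ∈ range (2 ^ k),
      (ht lam e n * v lam j m + ht (lam * (W e n) ^ (-(1 / 2) : ℝ)) j m) ≤
      ht lam e n * (2 ^ k / lam) + 2 ^ k / lam * (W e n) ^ (1 / 2 : ℝ) := by
    intro n _
    rw [sum_add_distrib, ← mul_sum]
    have hx := W_pos e n
    have h3 : 0 < (W e n) ^ (-(1 / 2) : ℝ) := Real.rpow_pos_of_pos hx _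
    refine add_le_add (mul_le_mul_of_nonneg_left (sum_v_le hl0 hjk) (ht_nonneg _ _ _)) ?_
    refine (sum_ht_le (mul_pos hl0 h3) hjk).trans (le_of_eq ?_)
    rw [Real.rpow_neg hx.le]
    have h4 : 0 < (W e n) ^ (1 / 2 : ℝ) := Real.rpow_pos_of_pos hx _
    field_simp
  refine (sum_le_sum h2).trans ?_
  rw [sum_add_distrib, ← sum_mul, ← mul_sum, moment]
  have h5 := sum_ht_le (j := e) (J := e) hl0 le_rfl
  have h6 : (∑ n ∈ range (2 ^ e), ht lam e n) * (2 ^ k / lam) ≤ 2 ^ e / lam * (2 ^ k / lam) :=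
    mul_le_mul_of_nonneg_right h5 (by positivity)
  refine (add_le_add_left h6 _).trans (le_of_eq ?_)
  rw [show ((3 / 2 : ℝ) ^ (1 / 2 : ℝ) + (1 / 2 : ℝ) ^ (1 / 2 : ℝ)) = Mh from rfl, div_pow, pow_add]
  field_simp

/-- Two visits at distance `e`. -/
theorem two_le {lam : ℝ} (hlam : 1 ≤ lam) {z j i e : ℕ} (h : i + e + j ≤ z) :
    ∑ N ∈ Ico (2 ^ z) (2 ^ (z + 1)), v lam j (T^[i] N) * v lam j (T^[i + e] N) ≤
      2 ^ z * (1 / lam ^ 2 + (Mh / 2) ^ e / lam) := by
  obtain ⟨k, rfl⟩ := Nat.exists_eq_add_of_le (show i ≤ z by omega)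
  set g : ℕ → ℝ := fun y => v lam j y * v lam j (T^[e] y) with hg
  have hgper : ∀ y a, g (y + 2 ^ k * a) = g y := by
    intro y a
    rw [hg]
    simp only
    rw [v_per (show j ≤ k by omega)]
    congr 1
    have h1 : 2 ^ k * a = 2 ^ e * (2 ^ (k - e) * a) := by
      rw [← mul_assoc, ← pow_add]
      congr 2
      omega
    rw [h1, (shift e y _).1]
    have h2 : 3 ^ o e y * (2 ^ (k - e) * a) = 2 ^ (k - e) * (3 ^ o e y * a) := by ring
    rw [h2, v_per (show j ≤ k - e by omega)]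
  have e1 : ∑ N ∈ Ico (2 ^ (i + k)) (2 ^ (i + k + 1)),
      v lam j (T^[i] N) * v lam j (T^[i + e] N) = ∑ N ∈ range (2 ^ (i + k)), g (T^[i] N) := by
    rw [show 2 ^ (i + k + 1) = 2 ^ (i + k) + 2 ^ (i + k) by ring, sum_Ico_eq_sum_range]
    rw [Nat.add_sub_cancel]
    refine sum_congr rfl fun N _ => ?_
    have h3 : T^[i] (2 ^ (i + k) + N) = T^[i] N + 2 ^ k * 3 ^ o i N := by
      rw [add_comm, pow_add, (shift i N (2 ^ k)).1]
      ring
    rw [add_comm i e, Function.iterate_add_apply, h3]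
    exact hgper _ _
  rw [e1]
  have h2 := indep i k (fun _ y => g y) (fun n a y => rfl) (fun n y => per_mod hgper y)
  rw [h2, sum_const, card_range, nsmul_eq_mul]
  have h3 := pair_le hlam (show e + j ≤ k by omega)
  have h4 : ((2 ^ i : ℕ) : ℝ) * ∑ m ∈ range (2 ^ k), g m ≤
      ((2 ^ i : ℕ) : ℝ) * (2 ^ k * (1 / lam ^ 2 + (Mh / 2) ^ e / lam)) :=
    mul_le_mul_of_nonneg_left h3 (by positivity)
  refine h4.trans (le_of_eq ?_)
  push_cast
  rw [pow_add]
  ring

theorem Mh_half : Mh / 2 ≤ 29 / 30 := by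
  have h1 : (3 / 2 : ℝ) ^ (1 / 2 : ℝ) ≤ 1226 / 1000 := by
    rw [← Real.sqrt_eq_rpow]
    rw [Real.sqrt_le_left (by norm_num)]
    norm_num
  have h2 : (1 / 2 : ℝ) ^ (1 / 2 : ℝ) ≤ 7072 / 10000 := by
    rw [← Real.sqrt_eq_rpow]
    rw [Real.sqrt_le_left (by norm_num)]
    norm_num
  unfold Mh
  linarith

theorem sum_Mh (n : ℕ) : ∑ e ∈ range n, (Mh / 2) ^ e ≤ 30 := by
  have h0 := Mh_pos
  have h1 := Mh_half
  have h2 : ∑ e ∈ range n, (Mh / 2) ^ e ≤ ∑ e ∈ range n, (29 / 30 : ℝ) ^ e :=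
    sum_le_sum fun e _ => pow_le_pow_left₀ (by positivity) h1 e
  refine h2.trans ?_
  rw [geom_sum_eq (by norm_num)]
  have h3 : (0 : ℝ) ≤ (29 / 30 : ℝ) ^ n := by positivity
  rw [div_le_iff_of_neg (by norm_num)]
  linarith

theorem sum_abs_le (n i : ℕ) (b : ℕ → ℝ) (hb : ∀ e, 0 ≤ b e) (hi : i < n) :
    ∑ i' ∈ range n, b (i' - i + (i - i')) ≤ 2 * ∑ e ∈ range n, b e := by
  classical
  have h1 : ∑ i' ∈ range n, b (i' - i + (i - i')) ≤
      ∑ i' ∈ range n, ((if i' ≤ i then b (i - i') else 0) + (if i ≤ i' then b (i' - i) else 0)) := by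
    refine sum_le_sum fun i' _ => ?_
    rcases le_total i' i with h | h
    · rw [if_pos h, show i' - i + (i - i') = i - i' by omega]
      have : 0 ≤ (if i ≤ i' then b (i' - i) else 0) := by
        split_ifs
        · exact hb _
        · exact le_rfl
      linarith
    · rw [if_pos h, show i' - i + (i - i') = i' - i by omega]
      have : 0 ≤ (if i' ≤ i then b (i - i') else 0) := by
        split_ifs
        · exact hb _
        · exact le_rfl
      linarith
  refine h1.trans ?_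
  rw [sum_add_distrib, two_mul]
  refine add_le_add ?_ ?_
  · rw [← sum_filter]
    rw [← sum_image (s := (range n).filter fun i' => i' ≤ i) (g := fun i' => i - i') (f := b)]
    · refine sum_le_sum_of_subset_of_nonneg ?_ fun e _ _ => hb e
      intro e he
      rw [mem_image] at he
      obtain ⟨i', h2, rfl⟩ := he
      rw [mem_filter, mem_range] at h2
      rw [mem_range]
      omega
    · intro x hx y hy hxy
      rw [mem_coe, mem_filter] at hx hy
      simp only at hxy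
      omega
  · rw [← sum_filter]
    rw [← sum_image (s := (range n).filter fun i' => i ≤ i') (g := fun i' => i' - i) (f := b)]
    · refine sum_le_sum_of_subset_of_nonneg ?_ fun e _ _ => hb e
      intro e he
      rw [mem_image] at he
      obtain ⟨i', h2, rfl⟩ := he
      rw [mem_filter, mem_range] at h2
      rw [mem_range]
      omega
    · intro x hx y hy hxy
      rw [mem_coe, mem_filter] at hx hy
      simp only at hxy
      omega

theorem vis_eq (lam : ℝ) (j n N : ℕ) : (vis (Vr lam j) n N : ℝ) = ∑ i ∈ range n, v lam j (T^[i] N) := by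
  classical
  unfold vis v
  rw [card_filter]
  push_cast
  refine sum_congr rfl fun i _ => ?_
  split_ifs <;> rfl

end Sec

open Sec in
theorem sec : SecStatement := by
  intro z j n lam hlam hz
  have hl0 : 0 < lam := by linarith
  have hMh := Mh_pos
  have e1 : ∀ N, (vis (Vr lam j) n N : ℝ) ^ 2 =
      ∑ i ∈ range n, ∑ i' ∈ range n, v lam j (T^[i] N) * v lam j (T^[i'] N) := by
    intro N
    rw [vis_eq, sq, sum_mul_sum]
  simp only [e1]
  rw [sum_comm]
  have h1 : ∀ i ∈ range n, ∑ N ∈ Ico (2 ^ z) (2 ^ (z + 1)),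
      ∑ i' ∈ range n, v lam j (T^[i] N) * v lam j (T^[i'] N) ≤
      2 * (2 ^ z * (n * (1 / lam ^ 2) + 30 / lam)) := by
    intro i hi
    rw [mem_range] at hi
    rw [sum_comm]
    have h2 : ∀ i' ∈ range n, ∑ N ∈ Ico (2 ^ z) (2 ^ (z + 1)),
        v lam j (T^[i] N) * v lam j (T^[i'] N) ≤
        2 ^ z * (1 / lam ^ 2 + (Mh / 2) ^ (i' - i + (i - i')) / lam) := by
      intro i' hi'
      rw [mem_range] at hi'
      rcases le_total i i' with h | h
      · have h3 := two_le (j := j) hlam (show i + (i' - i) + j ≤ z by omega)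
        rw [show i + (i' - i) = i' by omega] at h3
        rw [show i' - i + (i - i') = i' - i by omega]
        exact h3
      · have h3 := two_le (j := j) hlam (show i' + (i - i') + j ≤ z by omega)
        rw [show i' + (i - i') = i by omega] at h3
        rw [show i' - i + (i - i') = i - i' by omega]
        refine le_trans (le_of_eq (sum_congr rfl fun N _ => mul_comm _ _)) h3
    refine (sum_le_sum h2).trans ?_
    refine (sum_abs_le n i (fun e => 2 ^ z * (1 / lam ^ 2 + (Mh / 2) ^ e / lam))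
      (fun e => by positivity) hi).trans ?_
    refine mul_le_mul_of_nonneg_left ?_ (by norm_num)
    rw [← mul_sum, sum_add_distrib, sum_const, card_range, nsmul_eq_mul, ← sum_div]
    refine mul_le_mul_of_nonneg_left ?_ (by positivity)
    have h4 := sum_Mh n
    have h5 : (∑ e ∈ range n, (Mh / 2) ^ e) / lam ≤ 30 / lam := div_le_div_of_nonneg_right h4 hl0.le
    linarith
  refine (sum_le_sum h1).trans ?_
  rw [sum_const, card_range, nsmul_eq_mul]
  have h6 : (0 : ℝ) ≤ (n / lam) ^ 2 := by positivity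
  have h7 : (n : ℝ) * (2 * (2 ^ z * (n * (1 / lam ^ 2) + 30 / lam))) =
      2 ^ z * (60 * (n / lam) + 2 * (n / lam) ^ 2) := by
    field_simp
    ring
  rw [h7]
  have h8 : (0 : ℝ) < 2 ^ z := by positivity
  nlinarith [mul_nonneg h8.le h6]

end Pool.Agent.Lib.MP_0a5adf_nt.WT.Div
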