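import Pool.Agent.Lib.MP_0a5adf_nt.WT.DivDefs

/-! # Row VIO: a visit is a violation (helper53) -/

set_option autoImplicit false

namespace Pool.Agent.Lib.MP_0a5adf_nt.WT.Div

open Finset Pool.Agent.Lib.MP_0a5adf_nt.H89

theorem vio : VioStatement := by
  rintro ψ z lo n lam hψ hz - - ⟨i, -, ⟨t, -, ht⟩, ⟨b, hb, hb1, hb2⟩⟩ hT
  have hbz : b + 1 ≤ z := by
    have := mem_range.1 (mem_filter.1 hb).1
    omega
  have h1 : 1 ≤ T^[i] n := le_trans Nat.one_le_two_pow hb1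
  have h1' : (1 : ℝ) ≤ (T^[i] n : ℝ) := by exact_mod_cast h1
  have h2 : (T^[i] n : ℝ) ≤ 2 ^ z := by
    have : T^[i] n ≤ 2 ^ z := hb2.le.trans (Nat.pow_le_pow_right (by norm_num) hbz)
    exact_mod_cast this
  have h3 : ψ (T^[i] n) ≤ lam := (hψ.mono _ _ h1' h2).trans hz
  have h4 := hT i (i + t) (Nat.le_add_right i t)
  have h5 : T^[i + t] n = T^[t] (T^[i] n) := by rw [add_comm, Function.iterate_add_apply]
  rw [h5] at h4
  have h6 := W_mul_le t (T^[i] n)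
  have h7 : (T^[i] n : ℝ) * ψ (T^[i] n) ≤ T^[i] n * lam :=
    mul_le_mul_of_nonneg_left h3 (by linarith)
  have h8 : (T^[i] n : ℝ) * lam < T^[i] n * W t (T^[i] n) :=
    mul_lt_mul_of_pos_left ht (by linarith)
  have h9 : W t (T^[i] n) * (T^[i] n : ℝ) = T^[i] n * W t (T^[i] n) := mul_comm _ _
  linarith

end Pool.Agent.Lib.MP_0a5adf_nt.WT.Div
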