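import Pool.Agent.Lib.MP_edb5be_nt.ND.H26.Main2
import Pool.Agent.Lib.MP_edb5be_nt.CO.Core
import Pool.Agent.Lib.MP_0a5adf_nt.WT.Div.Cls
import Pool.Agent.Lib.MP_0a5adf_nt.WT.Div.Cnd
import Pool.Agent.Lib.MP_0a5adf_nt.WT.Div.Csz
import Pool.Agent.Lib.MP_0a5adf_nt.WT.Div.Dip
import Pool.Agent.Lib.MP_0a5adf_nt.WT.Div.End
import Pool.Agent.Lib.MP_0a5adf_nt.WT.Div.Fst
import Pool.Agent.Lib.MP_0a5adf_nt.WT.Div.HnvB
import Pool.Agent.Lib.MP_0a5adf_nt.WT.Div.Low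
import Pool.Agent.Lib.MP_0a5adf_nt.WT.Div.Phm
import Pool.Agent.Lib.MP_0a5adf_nt.WT.Div.PvpC
import Pool.Agent.Lib.MP_0a5adf_nt.WT.Div.Rec
import Pool.Agent.Lib.MP_0a5adf_nt.WT.Div.Sec
import Pool.Agent.Lib.MP_0a5adf_nt.WT.Div.Stp
import Pool.Agent.Lib.MP_0a5adf_nt.WT.Div.Vio

/-! Assembly of the divergent half (helper57). -/

set_option autoImplicit false

namespace Pool.Agent.Lib.MP_0a5adf_nt.WT.Div

open Pool.Agent.Lib.MP_edb5be_nt Pool.Agent.Lib.MP_0a5adf_nt.TP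

theorem pvpT : PvpStatement :=
  PvpC.pvp_c ND.pv1aT mixT joscT psplitT phiT Pool.Agent.Lib.MP_0a5adf_nt.TP.H15.hoeff ND.renewT

theorem fstT : FstStatement := fst low (cls CO.t4H ND.convT) pvpT (phm ND.ffaT)

theorem stpT : StpStatement := stp (csz fstT sec dip) hnvB ND.convT

theorem divT : DivStatement := div_end stpT rec_ cnd vio ND.convT

end Pool.Agent.Lib.MP_0a5adf_nt.WT.Div

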