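import Pool.Agent.Lib.MP_0a5adf_nt.WT.DivDefs

/-!
# Row LOW: the lower bound for the rises (MP_0a5adf_nt, helper9)
-/

set_option autoImplicit false

namespace Pool.Agent.Lib.MP_0a5adf_nt.WT.Div

open Finset Pool.Agent.Lib.MP_0a5adf_nt.H89

theorem Mh_lt_two' : Mh < 2 := by
  have h1 : Mh = √(3 / 2) + √(1 / 2) := by
    unfold Mh
    rw [← Real.sqrt_eq_rpow, ← Real.sqrt_eq_rpow]
  have h2 : √(3 / 2 : ℝ) < 1.2248 := by
    rw [Real.sqrt_lt' (by norm_num)]
    norm_num
  have h3 : √(1 / 2 : ℝ) < 0.7072 := by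
    rw [Real.sqrt_lt' (by norm_num)]
    norm_num
  rw [h1]
  linarith

open Classical in
theorem low_half (mu : ℝ) (hmu : 1 ≤ mu) (j : ℕ) :
    2 ^ j - mu ^ (1 / 2 : ℝ) * Mh ^ j ≤
      3 / 2 * mu * (((range (2 ^ j)).filter fun r => Hit mu j r).card : ℝ) := by
  have h1 := stopped mu hmu j
  rw [sum_ind] at h1
  have h4 : (2 : ℝ) ^ j - (∑ n ∈ range (2 ^ j), if Hit mu j n then W j n else 0)
      ≤ mu ^ (1 / 2 : ℝ) * Mh ^ j := by
    have hm : ∑ n ∈ range (2 ^ j), (W j n) ^ (1 / 2 : ℝ) = Mh ^ j := moment (1 / 2) j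
    rw [← total j, ← hm, ← Finset.sum_sub_distrib, Finset.mul_sum]
    apply Finset.sum_le_sum
    intro n _
    have hWpos := W_pos j n
    by_cases hH : Hit mu j n
    · rw [if_pos hH, sub_self]; positivity
    · rw [if_neg hH, sub_zero]
      have hlt : W j n ≤ mu := by
        by_contra hcon
        exact hH ⟨j, le_rfl, by linarith⟩
      calc W j n = (W j n) ^ (1 / 2 : ℝ) * (W j n) ^ (1 / 2 : ℝ) := by
            rw [← Real.rpow_add hWpos]; norm_num
        _ ≤ mu ^ (1 / 2 : ℝ) * (W j n) ^ (1 / 2 : ℝ) := by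
            gcongr
  linarith

/-- **Row LOW.** -/
theorem low : LowStatement := by
  classical
  have hM0 := Mh_pos
  have hM2 := Mh_lt_two'
  set g : ℝ := Real.log (2 / Mh) with hg
  have hg0 : 0 < g := Real.log_pos (by rw [lt_div_iff₀ hM0]; linarith)
  refine ⟨1 / 6, 2 / g, by norm_num, by positivity, fun lam j hlam hj => ?_⟩
  have hlam0 : 0 < lam := by linarith
  have hlog : 0 ≤ Real.log lam := Real.log_nonneg hlam
  have h1 := low_half (2 * lam) (by linarith) j
  -- the error term is at most `2 ^ j / 2`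
  have hj' : 2 * (1 + Real.log lam) ≤ j * g := by
    have h2 : 2 / g * (1 + Real.log lam) * g ≤ j * g := mul_le_mul_of_nonneg_right hj hg0.le
    have h3 : 2 / g * (1 + Real.log lam) * g = 2 * (1 + Real.log lam) := by
      field_simp
    linarith
  have h4 : (2 * lam) ^ (1 / 2 : ℝ) * Mh ^ j ≤ 1 / 2 * 2 ^ j := by
    have e1 : (2 / Mh : ℝ) ^ j = Real.exp (j * g) := by
      rw [hg, Real.exp_nat_mul, Real.exp_log (by positivity)]
    have e2 : 2 * (2 * lam) ^ (1 / 2 : ℝ) ≤ Real.exp (j * g) := by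
      have e3 : 2 * (2 * lam) ^ (1 / 2 : ℝ) =
          Real.exp (Real.log 2 + 1 / 2 * (Real.log 2 + Real.log lam)) := by
        rw [Real.exp_add, Real.exp_log (by norm_num), ← Real.log_mul (by norm_num) hlam0.ne',
          Real.rpow_def_of_pos (by positivity), mul_comm (1 / 2 : ℝ)]
      rw [e3]
      apply Real.exp_le_exp.2
      have e4 : Real.log 2 ≤ 1 := by
        have := Real.log_le_sub_one_of_pos (x := 2) (by norm_num)
        linarith
      linarith
    rw [← e1, div_pow, le_div_iff₀ (by positivity)] at e2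
    linarith
  have h5 : 1 / 2 * 2 ^ j ≤ 3 * lam * (((range (2 ^ j)).filter fun r => Hit (2 * lam) j r).card :
      ℝ) := by
    have : 3 / 2 * (2 * lam) = 3 * lam := by ring
    rw [this] at h1
    linarith
  have h6 : (((range (2 ^ j)).filter fun r => Hit (2 * lam) j r).card : ℝ) ≤
      (((range (2 ^ j)).filter fun r => r ∈ Vr lam j).card : ℝ) := by
    have : ((range (2 ^ j)).filter fun r => Hit (2 * lam) j r) ⊆
        (range (2 ^ j)).filter fun r => r ∈ Vr lam j := by
      intro r hr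
      rw [mem_filter] at hr ⊢
      obtain ⟨hr1, t, ht, hW⟩ := hr
      exact ⟨hr1, t, ht, by linarith⟩
    exact_mod_cast card_le_card this
  have h7 : 1 / 6 / lam * 2 ^ j ≤ (((range (2 ^ j)).filter fun r => Hit (2 * lam) j r).card : ℝ) := by
    rw [div_mul_eq_mul_div, div_le_iff₀ hlam0]
    linarith
  exact h7.trans h6

end Pool.Agent.Lib.MP_0a5adf_nt.WT.Div
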